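import Pool.Agent.Helper68.OC.Tab2A
import Pool.Agent.Helper68.OC.Tab2B
import Pool.Agent.Helper68.OC.Tab2C
import Pool.Agent.Helper68.OC.Tab2D
import Pool.Agent.Helper68.OC.Tab3A
import Pool.Agent.Helper68.OC.Tab3B
import Pool.Agent.Helper68.OC.Tab3C
import Pool.Agent.Helper68.OC.Tab3D
import Pool.Agent.Helper68.OC.Tab4A
import Pool.Agent.Helper68.OC.Tab4B
import Pool.Agent.Helper68.OC.Tab4C
import Pool.Agent.Helper68.OC.Tab4D
import Pool.Agent.Helper68.OC.Tab5A
import Pool.Agent.Helper68.OC.Tab5B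
import Pool.Agent.Helper68.OC.Tab5C
import Pool.Agent.Helper68.OC.Tab5D

/-! OC-Base. All cores on `17 ≤ n < 388` classes. -/

namespace Pool.Agent.Helper68.OC

theorem base2 (n : ℕ) (h1 : 17 ≤ n) (h2 : n < 388) : GC 2 n := by
  by_cases c0 : n < 161
  · exact tab2A_gc n (by omega) c0
  by_cases c1 : n < 245
  · exact tab2B_gc n (by omega) c1
  by_cases c2 : n < 317
  · exact tab2C_gc n (by omega) c2
  exact tab2D_gc n (by omega) h2

theorem base3 (n : ℕ) (h1 : 17 ≤ n) (h2 : n < 388) : GC 3 n := by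
  by_cases c0 : n < 161
  · exact tab3A_gc n (by omega) c0
  by_cases c1 : n < 245
  · exact tab3B_gc n (by omega) c1
  by_cases c2 : n < 317
  · exact tab3C_gc n (by omega) c2
  exact tab3D_gc n (by omega) h2

theorem base4 (n : ℕ) (h1 : 17 ≤ n) (h2 : n < 388) : GC 4 n := by
  by_cases c0 : n < 161
  · exact tab4A_gc n (by omega) c0
  by_cases c1 : n < 245
  · exact tab4B_gc n (by omega) c1
  by_cases c2 : n < 317
  · exact tab4C_gc n (by omega) c2
  exact tab4D_gc n (by omega) h2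

theorem base5 (n : ℕ) (h1 : 17 ≤ n) (h2 : n < 388) : GC 5 n := by
  by_cases c0 : n < 161
  · exact tab5A_gc n (by omega) c0
  by_cases c1 : n < 245
  · exact tab5B_gc n (by omega) c1
  by_cases c2 : n < 317
  · exact tab5C_gc n (by omega) c2
  exact tab5D_gc n (by omega) h2

theorem base {z : ℕ} (hz : z = 2 ∨ z = 3 ∨ z = 4 ∨ z = 5) (n : ℕ) (h1 : 17 ≤ n) (h2 : n < 388) :
    GC z n := by
  rcases hz with rfl | rfl | rfl | rfl
  · exact base2 n h1 h2
  · exact base3 n h1 h2
  · exact base4 n h1 h2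
  · exact base5 n h1 h2

end Pool.Agent.Helper68.OC
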