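import Pool.Agent.Helper68.OC.Tri

/-! OC-Chk. Kernel-checkable certificates for cores.

A certificate for a core on `{1, …, n}` with gap `g`: a *special part*, a list `S` of pairs
`(a, neighbours of a)`, and a list `T` of pairs `(a, b)`, `a < b`, standing for the Schur triples `{a, b, a + b}`. -/

namespace Pool.Agent.Helper68.OC

open Finset Pool.Agent.Helper74.Hc

/-- bitwise or of `2 ^ a` -/
def mask : List ℕ → ℕ
  | [] => 0
  | a :: l => (2 ^ a) ||| mask l

/-- all classes of a certificate -/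
def elems (S : List (ℕ × List ℤ)) (T : List (ℕ × ℕ)) : List ℕ :=
  S.map Prod.fst ++ T.flatMap fun p => [p.1, p.2, p.1 + p.2]

/-- the row of the class `a` -/
def rowOf (S : List (ℕ × List ℤ)) (a : ℕ) : List ℤ :=
  match S with
  | [] => []
  | (b, l) :: S => if a = b then l else rowOf S a

/-- check of one row of the special part -/
def chkRow (S : List (ℕ × List ℤ)) (g : ℤ) (D : ℕ) (a : ℕ) (l : List ℤ) : Bool :=
  decide (0 < a) && decide l.Nodup && decide (l.sum = a) && decide ((l.map (sg g)).sum = sg g a) &&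
  (decide (l.length = 2) || decide (l.length = 4) || decide (l.length = 6)) && decide (l.length ≤ D) &&
  decide ((l.filter fun y => y ≠ 0 ∧ y ≠ -(a : ℤ)).length ≤ 4) &&
  l.all fun y => decide (y ≠ a) &&
    (decide (y = 0) || (if 0 < y then decide ((a : ℤ) ∈ rowOf S y.natAbs)
      else decide (-(a : ℤ) ∈ rowOf S y.natAbs)))

/-- the check, for `z`, `n`, gap `g`, special part `S`, triples `T` -/
def chk (z n g : ℕ) (S : List (ℕ × List ℤ)) (T : List (ℕ × ℕ)) : Bool :=
  decide (1 ≤ g) && decide (g ≤ n + 1) && decide ((elems S T).length = n) &&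
  decide (mask (elems S T) = 2 ^ (n + 1) - 2) &&
  S.all (fun p => chkRow S g (if z = 2 then 4 else 6) p.1 p.2) &&
  T.all (fun p => decide (0 < p.1) && decide (p.1 < p.2) &&
    ((decide (p.1 < g) && decide (g ≤ p.2)) || decide (p.1 + p.2 < g))) &&
  decide ((S.filter fun p => (0 : ℤ) ∈ p.2).length = z) &&
  decide ((2 * z * n + (S.map fun p => p.2.length).sum + 6 * T.length) % 4 = 0) &&
  (decide (n < 36) || decide ((S.filter fun p => p.2.length ≠ 2).length + 15 ≤ n))

/-! ### the bit mask -/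

private lemma Chk_mask (l : List ℕ) (i : ℕ) : (mask l).testBit i = decide (i ∈ l) := by
  induction l with
  | nil => simp [mask]
  | cons a l ih =>
    rw [mask, Nat.testBit_or, ih, Nat.testBit_two_pow]
    by_cases h1 : a = i
    · subst h1
      simp
    · have h2 : ¬ i = a := fun h => h1 h.symm
      simp [h1, h2]

private lemma Chk_full (n i : ℕ) : (2 ^ (n + 1) - 2).testBit i = decide (1 ≤ i ∧ i ≤ n) := by
  have h1 : 2 ^ (n + 1) - 2 = 2 * (2 ^ n - 1) := by
    rw [pow_succ]
    omega
  rw [h1]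
  cases i with
  | zero => simp
  | succ i =>
    rw [Nat.testBit_succ, Nat.mul_div_cancel_left _ (by norm_num : 0 < 2),
      Nat.testBit_two_pow_sub_one]
    have h2 : (i < n) ↔ (1 ≤ i + 1 ∧ i + 1 ≤ n) := by omega
    simp only [h2]

private lemma Chk_mem {l : List ℕ} {n : ℕ} (h : mask l = 2 ^ (n + 1) - 2) (i : ℕ) :
    i ∈ l ↔ 1 ≤ i ∧ i ≤ n := by
  have h1 := Chk_mask l i
  rw [h, Chk_full] at h1
  have h2 : (decide (1 ≤ i ∧ i ≤ n) = true) ↔ (decide (i ∈ l) = true) := by rw [h1]
  rw [decide_eq_true_eq, decide_eq_true_eq] at h2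
  exact h2.symm

private lemma Chk_nodup {l : List ℕ} {n : ℕ} (h : mask l = 2 ^ (n + 1) - 2) (hl : l.length = n) :
    l.Nodup := by
  have h1 : l.toFinset = Finset.Icc 1 n := by
    ext i
    rw [List.mem_toFinset, Chk_mem h, Finset.mem_Icc]
  have h2 : l.dedup.length = l.length := by
    rw [← List.card_toFinset, h1, Nat.card_Icc, hl]
    omega
  have h3 := (List.dedup_sublist l).eq_of_length h2
  rw [← h3]
  exact List.nodup_dedup l

/-! ### rows -/

private lemma Chk_rowOf_mem (S : List (ℕ × List ℤ)) (a : ℕ) {y : ℤ} (h : y ∈ rowOf S a) :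
    (a, rowOf S a) ∈ S := by
  induction S with
  | nil => simp [rowOf] at h
  | cons p S ih =>
    obtain ⟨b, l⟩ := p
    by_cases hab : a = b
    · subst hab
      simp [rowOf]
    · have e : rowOf ((b, l) :: S) a = rowOf S a := by
        simp [rowOf, hab]
      rw [e] at h ⊢
      exact List.mem_cons_of_mem _ (ih h)

private lemma Chk_rowOf_eq {S : List (ℕ × List ℤ)} (hS : (S.map Prod.fst).Nodup) {a : ℕ}
    {l : List ℤ} (h : (a, l) ∈ S) : rowOf S a = l := by
  induction S with
  | nil => simp at h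
  | cons p S ih =>
    obtain ⟨b, m⟩ := p
    rw [List.map_cons, List.nodup_cons] at hS
    rcases List.mem_cons.1 h with h1 | h1
    · rw [Prod.mk.injEq] at h1
      obtain ⟨rfl, rfl⟩ := h1
      simp [rowOf]
    · have hab : ¬ a = b := by
        rintro rfl
        exact hS.1 (List.mem_map.2 ⟨(a, l), h1, rfl⟩)
      have e : rowOf ((b, m) :: S) a = rowOf S a := by
        simp [rowOf, hab]
      rw [e]
      exact ih hS.2 h1

private structure Chk_Row (S : List (ℕ × List ℤ)) (g : ℤ) (D : ℕ) (a : ℕ) (l : List ℤ) : Prop where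
  pos : 0 < a
  nd : l.Nodup
  sum : l.sum = (a : ℤ)
  gap : (l.map (sg g)).sum = sg g a
  len : l.length = 2 ∨ l.length = 4 ∨ l.length = 6
  lenD : l.length ≤ D
  kd : (l.filter fun y => y ≠ 0 ∧ y ≠ -(a : ℤ)).length ≤ 4
  irr : ∀ y ∈ l, y ≠ (a : ℤ)
  adp : ∀ y ∈ l, 0 < y → (a : ℤ) ∈ rowOf S y.natAbs
  adn : ∀ y ∈ l, y < 0 → -(a : ℤ) ∈ rowOf S y.natAbs

private lemma Chk_row {S : List (ℕ × List ℤ)} {g : ℤ} {D a : ℕ} {l : List ℤ}
    (h : chkRow S g D a l = true) : Chk_Row S g D a l := by
  unfold chkRow at h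
  simp only [Bool.and_eq_true, Bool.or_eq_true, decide_eq_true_eq, List.all_eq_true] at h
  obtain ⟨⟨⟨⟨⟨⟨⟨h1, h2⟩, h3⟩, h4⟩, h5⟩, h6⟩, h7⟩, h8⟩ := h
  refine ⟨h1, h2, h3, h4, ?_, h6, h7, fun y hy => (h8 y hy).1, ?_, ?_⟩
  · rcases h5 with (h5 | h5) | h5
    · exact Or.inl h5
    · exact Or.inr (Or.inl h5)
    · exact Or.inr (Or.inr h5)
  · intro y hy hy0
    rcases (h8 y hy).2 with h9 | h9
    · omega
    · rw [if_pos hy0, decide_eq_true_eq] at h9
      exact h9
  · intro y hy hy0
    rcases (h8 y hy).2 with h9 | h9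
    · omega
    · rw [if_neg (by omega), decide_eq_true_eq] at h9
      exact h9

/-! ### the special part -/

/-- the classes joined to `0` -/
private def Chk_Z (S : List (ℕ × List ℤ)) : Finset ℤ :=
  ((S.filter fun p => (0 : ℤ) ∈ p.2).map fun p => (p.1 : ℤ)).toFinset

/-- the neighbourhoods of the special part -/
private def Chk_N (S : List (ℕ × List ℤ)) (x : ℤ) : Finset ℤ :=
  if x = 0 then Chk_Z S ∪ (Chk_Z S).image fun y => -y
  else if 0 < x then (rowOf S x.natAbs).toFinset
  else (rowOf S x.natAbs).toFinset.image fun y => -y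

private lemma Chk_mem_Z {S : List (ℕ × List ℤ)} (hS : (S.map Prod.fst).Nodup)
    (hR : ∀ p ∈ S, 0 < p.1) {y : ℤ} : y ∈ Chk_Z S ↔ 0 < y ∧ (0 : ℤ) ∈ rowOf S y.natAbs := by
  unfold Chk_Z
  rw [List.mem_toFinset, List.mem_map]
  constructor
  · rintro ⟨p, hp, rfl⟩
    rw [List.mem_filter, decide_eq_true_eq] at hp
    have h1 := hR p hp.1
    refine ⟨by exact_mod_cast h1, ?_⟩
    rw [Int.natAbs_natCast, Chk_rowOf_eq hS (a := p.1) (l := p.2) hp.1]
    exact hp.2
  · rintro ⟨h1, h2⟩
    refine ⟨(y.natAbs, rowOf S y.natAbs), ?_, ?_⟩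
    · rw [List.mem_filter, decide_eq_true_eq]
      exact ⟨Chk_rowOf_mem S _ h2, h2⟩
    · show ((y.natAbs : ℕ) : ℤ) = y
      omega

private lemma Chk_N_zero (S : List (ℕ × List ℤ)) (y : ℤ) :
    y ∈ Chk_N S 0 ↔ y ∈ Chk_Z S ∨ -y ∈ Chk_Z S := by
  unfold Chk_N
  rw [if_pos rfl, mem_union, mem_image]
  constructor
  · rintro (h | ⟨w, hw, rfl⟩)
    · exact Or.inl h
    · right
      simpa using hw
  · rintro (h | h)
    · exact Or.inl h
    · exact Or.inr ⟨-y, h, by simp⟩

private lemma Chk_N_pos (S : List (ℕ × List ℤ)) {x : ℤ} (hx : 0 < x) (y : ℤ) :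
    y ∈ Chk_N S x ↔ y ∈ rowOf S x.natAbs := by
  unfold Chk_N
  rw [if_neg (by omega), if_pos hx, List.mem_toFinset]

private lemma Chk_N_neg (S : List (ℕ × List ℤ)) {x : ℤ} (hx : x < 0) (y : ℤ) :
    y ∈ Chk_N S x ↔ -y ∈ rowOf S x.natAbs := by
  unfold Chk_N
  rw [if_neg (by omega), if_neg (by omega), mem_image]
  constructor
  · rintro ⟨w, hw, rfl⟩
    rw [List.mem_toFinset] at hw
    simpa using hw
  · intro h
    exact ⟨-y, List.mem_toFinset.2 h, by simp⟩

private lemma Chk_special {S : List (ℕ × List ℤ)} {g : ℤ} {D : ℕ}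
    (hS : (S.map Prod.fst).Nodup) (hR : ∀ p ∈ S, Chk_Row S g D p.1 p.2) :
    IsCore (Chk_N S) (S.map fun p => (p.1 : ℤ)).toFinset g
      ((S.filter fun p => (0 : ℤ) ∈ p.2).length) D ((S.filter fun p => p.2.length ≠ 2).length)
      ((S.map fun p => p.2.length).sum) := by
  have hpos : ∀ p ∈ S, 0 < p.1 := fun p hp => (hR p hp).pos
  have hrow : ∀ (a : ℕ) (y : ℤ), y ∈ rowOf S a → Chk_Row S g D a (rowOf S a) := fun a y hy =>
    hR _ (Chk_rowOf_mem S a hy)
  have hZ : ∀ y : ℤ, y ∈ Chk_Z S ↔ 0 < y ∧ (0 : ℤ) ∈ rowOf S y.natAbs := fun y =>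
    Chk_mem_Z hS hpos
  have hSZ : (S.map fun p => (p.1 : ℤ)).Nodup := by
    have h1 : (S.map fun p => (p.1 : ℤ)) = (S.map Prod.fst).map (fun a : ℕ => (a : ℤ)) := by
      rw [List.map_map]
      rfl
    rw [h1]
    exact hS.map Nat.cast_injective
  have hNS : ∀ p ∈ S, Chk_N S (p.1 : ℤ) = p.2.toFinset := by
    intro p hp
    have h1 := hpos p hp
    have h2 : rowOf S p.1 = p.2 := Chk_rowOf_eq hS (a := p.1) (l := p.2) hp
    unfold Chk_N
    rw [if_neg (by omega), if_pos (by exact_mod_cast h1), Int.natAbs_natCast, h2]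
  refine ⟨?_, ⟨?_, ?_⟩, ?_, ?_, ?_, ?_, ?_, ?_, ?_, ?_, ?_, ?_⟩
  · -- pos
    intro x hx
    rw [List.mem_toFinset, List.mem_map] at hx
    obtain ⟨p, hp, rfl⟩ := hx
    exact_mod_cast hpos p hp
  · -- symm
    intro x y hy
    rcases lt_trichotomy x 0 with hx | hx | hx
    · rw [Chk_N_neg S hx] at hy
      have hr := hrow _ _ hy
      have ha : ((x.natAbs : ℕ) : ℤ) = -x := by omega
      rcases lt_trichotomy y 0 with hy0 | hy0 | hy0
      · have h1 := hr.adp _ hy (by omega)
        rw [ha, Int.natAbs_neg] at h1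
        rw [Chk_N_neg S hy0]
        exact h1
      · subst hy0
        rw [Chk_N_zero]
        right
        rw [hZ, Int.natAbs_neg]
        refine ⟨by omega, ?_⟩
        simpa using hy
      · have h1 := hr.adn _ hy (by omega)
        rw [ha, Int.natAbs_neg, neg_neg] at h1
        rw [Chk_N_pos S hy0]
        exact h1
    · subst hx
      rw [Chk_N_zero] at hy
      rcases hy with hy | hy
      · rw [hZ] at hy
        rw [Chk_N_pos S hy.1]
        exact hy.2
      · rw [hZ, Int.natAbs_neg] at hy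
        rw [Chk_N_neg S (by omega)]
        simpa using hy.2
    · rw [Chk_N_pos S hx] at hy
      have hr := hrow _ _ hy
      have ha : ((x.natAbs : ℕ) : ℤ) = x := by omega
      rcases lt_trichotomy y 0 with hy0 | hy0 | hy0
      · have h1 := hr.adn _ hy hy0
        rw [ha] at h1
        rw [Chk_N_neg S hy0]
        exact h1
      · subst hy0
        rw [Chk_N_zero]
        left
        rw [hZ]
        exact ⟨hx, hy⟩
      · have h1 := hr.adp _ hy hy0
        rw [ha] at h1
        rw [Chk_N_pos S hy0]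
        exact h1
  · -- irr
    intro x hy
    rcases lt_trichotomy x 0 with hx | hx | hx
    · rw [Chk_N_neg S hx] at hy
      have hr := hrow _ _ hy
      exact hr.irr _ hy (by omega)
    · subst hx
      rw [Chk_N_zero] at hy
      rcases hy with hy | hy
      · rw [hZ] at hy
        omega
      · rw [hZ] at hy
        omega
    · rw [Chk_N_pos S hx] at hy
      have hr := hrow _ _ hy
      exact hr.irr _ hy (by omega)
  · -- odd
    intro x y hy
    rcases lt_trichotomy x 0 with hx | hx | hx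
    · rw [Chk_N_neg S hx] at hy
      rw [Chk_N_pos S (by omega), Int.natAbs_neg]
      exact hy
    · subst hx
      rw [Chk_N_zero] at hy
      rw [neg_zero, Chk_N_zero, neg_neg]
      exact hy.symm
    · rw [Chk_N_pos S hx] at hy
      rw [Chk_N_neg S (by omega), Int.natAbs_neg, neg_neg]
      exact hy
  · -- supp
    intro x hx0 hx
    rw [Finset.eq_empty_iff_forall_notMem]
    intro y hy
    apply hx
    have h1 : ∃ w : ℤ, w ∈ rowOf S x.natAbs := by
      rcases lt_or_gt_of_ne hx0 with h | h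
      · rw [Chk_N_neg S h] at hy
        exact ⟨_, hy⟩
      · rw [Chk_N_pos S h] at hy
        exact ⟨_, hy⟩
    obtain ⟨w, hw⟩ := h1
    rw [List.mem_toFinset, List.mem_map]
    refine ⟨_, Chk_rowOf_mem S _ hw, ?_⟩
    exact Int.natCast_natAbs x
  · -- sum
    intro x hx
    rw [List.mem_toFinset, List.mem_map] at hx
    obtain ⟨p, hp, rfl⟩ := hx
    have hr := hR p hp
    rw [hNS p hp, List.sum_toFinset _ hr.nd]
    simpa using hr.sum
  · -- gap
    intro x hx
    rw [List.mem_toFinset, List.mem_map] at hx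
    obtain ⟨p, hp, rfl⟩ := hx
    have hr := hR p hp
    rw [hNS p hp, List.sum_toFinset _ hr.nd]
    exact hr.gap
  · -- zero
    have h1 : Chk_N S 0 = Chk_Z S ∪ (Chk_Z S).image fun y => -y := by
      unfold Chk_N
      rw [if_pos rfl]
    have h2 : (Chk_Z S).card = (S.filter fun p => (0 : ℤ) ∈ p.2).length := by
      unfold Chk_Z
      rw [List.toFinset_card_of_nodup, List.length_map]
      have h3 : ((S.filter fun p => (0 : ℤ) ∈ p.2).map fun p => (p.1 : ℤ)).Sublist
          (S.map fun p => (p.1 : ℤ)) := (List.filter_sublist).map _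
      exact h3.nodup hSZ
    have h4 : Disjoint (Chk_Z S) ((Chk_Z S).image fun y => -y) := by
      rw [Finset.disjoint_left]
      intro y hy hy2
      rw [mem_image] at hy2
      obtain ⟨w, hw, rfl⟩ := hy2
      rw [hZ] at hy hw
      omega
    rw [h1, card_union_of_disjoint h4, card_image_of_injective _ neg_injective, h2]
    ring
  · -- deg
    intro x hx
    rw [List.mem_toFinset, List.mem_map] at hx
    obtain ⟨p, hp, rfl⟩ := hx
    have hr := hR p hp
    rw [hNS p hp, List.toFinset_card_of_nodup hr.nd]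
    exact hr.len
  · -- degD
    intro x hx
    rw [List.mem_toFinset, List.mem_map] at hx
    obtain ⟨p, hp, rfl⟩ := hx
    have hr := hR p hp
    rw [hNS p hp, List.toFinset_card_of_nodup hr.nd]
    exact hr.lenD
  · -- kdeg
    intro x hx
    rw [List.mem_toFinset, List.mem_map] at hx
    obtain ⟨p, hp, rfl⟩ := hx
    have hr := hR p hp
    rw [hNS p hp]
    have h1 : (p.2.toFinset.filter fun y => y ≠ 0 ∧ y ≠ -(p.1 : ℤ)) =
        (p.2.filter fun y => y ≠ 0 ∧ y ≠ -(p.1 : ℤ)).toFinset := by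
      ext y
      simp only [mem_filter, List.mem_toFinset, List.mem_filter, decide_eq_true_eq]
    rw [h1]
    exact le_trans (List.toFinset_card_le _) hr.kd
  · -- few
    have h1 : ((S.map fun p => (p.1 : ℤ)).toFinset.filter fun x => (Chk_N S x).card ≠ 2) ⊆
        ((S.filter fun p => p.2.length ≠ 2).map fun p => (p.1 : ℤ)).toFinset := by
      intro x hx
      rw [mem_filter, List.mem_toFinset, List.mem_map] at hx
      obtain ⟨⟨p, hp, rfl⟩, hx2⟩ := hx
      rw [hNS p hp, List.toFinset_card_of_nodup (hR p hp).nd] at hx2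
      rw [List.mem_toFinset, List.mem_map]
      refine ⟨p, ?_, rfl⟩
      rw [List.mem_filter, decide_eq_true_eq]
      exact ⟨hp, hx2⟩
    refine le_trans (card_le_card h1) (le_trans (List.toFinset_card_le _) ?_)
    rw [List.length_map]
  · -- tot
    rw [List.sum_toFinset _ hSZ, List.map_map]
    congr 1
    apply List.map_congr_left
    intro p hp
    show (Chk_N S (p.1 : ℤ)).card = p.2.length
    rw [hNS p hp, List.toFinset_card_of_nodup (hR p hp).nd]

theorem gc_of_chk {z n g : ℕ} {S : List (ℕ × List ℤ)} {T : List (ℕ × ℕ)}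
    (h : chk z n g S T = true) : GC z n := by
  unfold chk at h
  simp only [Bool.and_eq_true, Bool.or_eq_true, decide_eq_true_eq, List.all_eq_true] at h
  obtain ⟨⟨⟨⟨⟨⟨⟨⟨h1, h2⟩, h3⟩, h4⟩, h5⟩, h6⟩, h7⟩, h8⟩, h9⟩ := h
  have hmem : ∀ i : ℕ, i ∈ elems S T ↔ 1 ≤ i ∧ i ≤ n := fun i => Chk_mem h4 i
  have hnd : (elems S T).Nodup := Chk_nodup h4 h3
  unfold elems at hnd
  rw [List.nodup_append] at hnd
  obtain ⟨hnS, hnT, hST⟩ := hnd
  rw [List.nodup_flatMap] at hnT
  obtain ⟨hT1, hT2⟩ := hnT
  have hR : ∀ p ∈ S, Chk_Row S (g : ℤ) (if z = 2 then 4 else 6) p.1 p.2 := fun p hp =>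
    Chk_row (h5 p hp)
  have hcore := Chk_special hnS hR
  rw [h7] at hcore
  have hTnd : T.Nodup := by
    refine hT2.imp ?_
    intro p q hpq heq
    subst heq
    have h10 : p.1 ∈ [p.1, p.2, p.1 + p.2] := by simp
    exact hpq h10 h10
  have hinj : Function.Injective (fun p : ℕ × ℕ => ((p.1 : ℤ), (p.2 : ℤ))) := by
    intro p q hpq
    have e1 : (p.1 : ℤ) = q.1 := congrArg Prod.fst hpq
    have e2 : (p.2 : ℤ) = q.2 := congrArg Prod.snd hpq
    exact Prod.ext (by exact_mod_cast e1) (by exact_mod_cast e2)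
  have hcard : (T.map (fun p : ℕ × ℕ => ((p.1 : ℤ), (p.2 : ℤ)))).toFinset.card = T.length := by
    rw [List.toFinset_card_of_nodup (hTnd.map hinj), List.length_map]
  have hext := core_ext ⟨_, hcore⟩ (by exact_mod_cast h1) (by split_ifs <;> norm_num)
    (T.map (fun p : ℕ × ℕ => ((p.1 : ℤ), (p.2 : ℤ)))).toFinset ?_ ?_ ?_ ?_
  · rw [hcard] at hext
    refine ⟨(g : ℤ), (S.filter fun p => p.2.length ≠ 2).length,
      (S.map fun p => p.2.length).sum + 6 * T.length, by exact_mod_cast h1,
      by exact_mod_cast h2, ?_, ?_, ?_⟩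
    · have hX : (S.map fun p => (p.1 : ℤ)).toFinset ∪
          (T.map (fun p : ℕ × ℕ => ((p.1 : ℤ), (p.2 : ℤ)))).toFinset.biUnion
            (fun p => {p.1, p.2, p.1 + p.2}) = Icc 1 (n : ℤ) := by
        ext x
        rw [mem_union, List.mem_toFinset, List.mem_map, mem_biUnion, mem_Icc]
        constructor
        · rintro (⟨p, hp, rfl⟩ | ⟨q, hq, hx⟩)
          · have h10 := (hmem p.1).1 (by
              unfold elems
              rw [List.mem_append]
              exact Or.inl (List.mem_map.2 ⟨p, hp, rfl⟩))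
            exact ⟨by exact_mod_cast h10.1, by exact_mod_cast h10.2⟩
          · rw [List.mem_toFinset, List.mem_map] at hq
            obtain ⟨p, hp, rfl⟩ := hq
            have h10 : ∀ i ∈ [p.1, p.2, p.1 + p.2], 1 ≤ i ∧ i ≤ n := by
              intro i hi
              apply (hmem i).1
              unfold elems
              rw [List.mem_append, List.mem_flatMap]
              exact Or.inr ⟨p, hp, hi⟩
            simp only [mem_insert, mem_singleton] at hx
            rcases hx with rfl | rfl | rfl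
            · have h11 := h10 p.1 (by simp)
              exact ⟨by exact_mod_cast h11.1, by exact_mod_cast h11.2⟩
            · have h11 := h10 p.2 (by simp)
              exact ⟨by exact_mod_cast h11.1, by exact_mod_cast h11.2⟩
            · have h11 := h10 (p.1 + p.2) (by simp)
              exact ⟨by exact_mod_cast h11.1, by exact_mod_cast h11.2⟩
        · rintro ⟨hx1, hx2⟩
          have h10 : x.toNat ∈ elems S T := (hmem _).2 ⟨by omega, by omega⟩
          have h11 : ((x.toNat : ℕ) : ℤ) = x := Int.toNat_of_nonneg (by omega)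
          unfold elems at h10
          rw [List.mem_append, List.mem_map, List.mem_flatMap] at h10
          rcases h10 with ⟨p, hp, he⟩ | ⟨p, hp, he⟩
          · left
            exact ⟨p, hp, by rw [he]; exact h11⟩
          · right
            refine ⟨((p.1 : ℤ), (p.2 : ℤ)), ?_, ?_⟩
            · rw [List.mem_toFinset, List.mem_map]
              exact ⟨p, hp, rfl⟩
            · simp only [List.mem_cons, List.not_mem_nil, or_false] at he
              simp only [mem_insert, mem_singleton]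
              omega
      rw [hX] at hext
      exact hext
    · rw [← Nat.add_assoc]
      exact Nat.dvd_of_mod_eq_zero h8
    · intro hn
      rcases h9 with h9 | h9
      · omega
      · exact h9
  · intro q hq
    rw [List.mem_toFinset, List.mem_map] at hq
    obtain ⟨p, hp, rfl⟩ := hq
    have h10 := (h6 p hp).1
    show (0 : ℤ) < (p.1 : ℤ) ∧ (p.1 : ℤ) < (p.2 : ℤ)
    exact ⟨by exact_mod_cast h10.1, by exact_mod_cast h10.2⟩
  · intro q hq q' hq' hne
    rw [List.mem_toFinset, List.mem_map] at hq hq'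
    obtain ⟨p, hp, rfl⟩ := hq
    obtain ⟨p', hp', rfl⟩ := hq'
    have hpp : p ≠ p' := by
      rintro rfl
      exact hne rfl
    have hsym : Std.Symm (Function.onFun List.Disjoint
        (fun p : ℕ × ℕ => [p.1, p.2, p.1 + p.2])) := ⟨fun a b hab => List.Disjoint.symm hab⟩
    have h10 := hT2.forall hp hp' hpp
    rw [Finset.disjoint_left]
    intro x hx hx'
    simp only [mem_insert, mem_singleton] at hx hx'
    have h11 : x.toNat ∈ [p.1, p.2, p.1 + p.2] := by
      simp only [List.mem_cons, List.not_mem_nil, or_false]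
      omega
    have h12 : x.toNat ∈ [p'.1, p'.2, p'.1 + p'.2] := by
      simp only [List.mem_cons, List.not_mem_nil, or_false]
      omega
    exact h10 h11 h12
  · intro q hq
    rw [List.mem_toFinset, List.mem_map] at hq
    obtain ⟨p, hp, rfl⟩ := hq
    rw [Finset.disjoint_left]
    intro x hx hx'
    rw [List.mem_toFinset, List.mem_map] at hx
    obtain ⟨s, hs, rfl⟩ := hx
    simp only [mem_insert, mem_singleton] at hx'
    have h11 : s.1 ∈ [p.1, p.2, p.1 + p.2] := by
      simp only [List.mem_cons, List.not_mem_nil, or_false]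
      omega
    exact hST s.1 (List.mem_map.2 ⟨s, hs, rfl⟩) s.1 (List.mem_flatMap.2 ⟨p, hp, h11⟩) rfl
  · intro q hq
    rw [List.mem_toFinset, List.mem_map] at hq
    obtain ⟨p, hp, rfl⟩ := hq
    have h10 := (h6 p hp).2
    show ((p.1 : ℤ) < (g : ℤ) ∧ (g : ℤ) ≤ (p.2 : ℤ)) ∨ (p.1 : ℤ) + (p.2 : ℤ) < (g : ℤ)
    rcases h10 with h10 | h10
    · left
      exact ⟨by exact_mod_cast h10.1, by exact_mod_cast h10.2⟩
    · right
      exact_mod_cast h10

end Pool.Agent.Helper68.OC
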