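import Mathlib

/-! OC-Circ. Regular graphs between blocks of four. ELEMENTARY.

For `j ≥ 1` blocks `{4i, …, 4i+3}`, `i < j`, and every `h ≤ 4 j - 4`: an `h`-regular graph on `{0, …, 4j-1}`
without edges inside the blocks.
PLAN. Positions in the cyclic group `ZMod (4 j)`: the number `a` (block `i = a / 4`, `e = a % 4`) gets the position
`i + j e`; this is a bijection, and two numbers are in the same block iff their positions are congruent modulo
`j`. Take a circulant graph: connection set `C ⊆ {c : c not divisible by j}`, `C = -C`. The `4j - 4` elements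
not divisible by `j` form `2j - 2` pairs `±c` (`c ≠ -c` since `2c = 0` implies `j ∣ c`). `h` even: take
`h / 2` pairs, e.g. `c ∈ [1, 2j-1]`, `c ≠ j`: the first `h/2` of them. `h` odd (then `h ≤ 4j - 5`, so `j ≥ 2`):
`(h-1)/2` pairs out of those with `c ≠ 1`, and the perfect matching `2i — 2i+1` of positions. -/

namespace Pool.Agent.Helper68.OC

open Finset

/-- the position of the number `a` -/
private def cps (j a : ℕ) : ℕ := a / 4 + j * (a % 4)

private theorem cps_lt {j a : ℕ} (ha : a < 4 * j) : cps j a < 4 * j := by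
  unfold cps
  have h1 : a / 4 < j := by omega
  have h2 : j * (a % 4) ≤ j * 3 := Nat.mul_le_mul_left _ (by omega)
  omega

private theorem cps_mod {j a : ℕ} (ha : a < 4 * j) : cps j a % j = a / 4 := by
  unfold cps
  rw [Nat.add_mul_mod_self_left, Nat.mod_eq_of_lt (by omega)]

private theorem cps_div {j a : ℕ} (ha : a < 4 * j) : cps j a / j = a % 4 := by
  unfold cps
  have h1 : a / 4 < j := by omega
  rw [Nat.add_mul_div_left _ _ (by omega), Nat.div_eq_of_lt h1, Nat.zero_add]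

private theorem cps_inj {j a b : ℕ} (ha : a < 4 * j) (hb : b < 4 * j) (h : cps j a = cps j b) : a = b := by
  have h1 := cps_mod ha
  have h2 := cps_div ha
  rw [h, cps_mod hb] at h1
  rw [h, cps_div hb] at h2
  omega

private theorem cps_surj {j x : ℕ} (hx : x < 4 * j) : ∃ a < 4 * j, cps j a = x := by
  have hj : 0 < j := by omega
  have h1 : x % j < j := Nat.mod_lt _ hj
  have h2 : x / j < 4 := (Nat.div_lt_iff_lt_mul hj).2 hx
  have h0 := Nat.mod_add_div x j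
  obtain ⟨u, hu⟩ : ∃ u, u = x % j := ⟨_, rfl⟩
  obtain ⟨v, hv⟩ : ∃ v, v = x / j := ⟨_, rfl⟩
  rw [← hu] at h1 h0
  rw [← hv] at h2 h0
  refine ⟨4 * u + v, by omega, ?_⟩
  have h3 : (4 * u + v) / 4 = u := by omega
  have h4 : (4 * u + v) % 4 = v := by omega
  unfold cps
  rw [h3, h4]
  exact h0

private theorem cc_tr (j h : ℕ) (N : ℕ → Finset ℕ) (h1 : ∀ x < 4 * j, ∀ y ∈ N x, x ∈ N y)
    (h2 : ∀ x < 4 * j, ∀ y ∈ N x, y < 4 * j ∧ x % j ≠ y % j) (h3 : ∀ x < 4 * j, (N x).card = h) :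
    ∃ H : ℕ → Finset ℕ,
    (∀ a b, b ∈ H a → a ∈ H b) ∧ (∀ a, a ∉ H a) ∧
    (∀ a b, b ∈ H a → a < 4 * j ∧ b < 4 * j ∧ a / 4 ≠ b / 4) ∧ ∀ a < 4 * j, (H a).card = h := by
  obtain ⟨H, hH⟩ : ∃ H : ℕ → Finset ℕ, ∀ a b, b ∈ H a ↔ a < 4 * j ∧ b < 4 * j ∧ cps j b ∈ N (cps j a) := by
    refine ⟨fun a => if a < 4 * j then (range (4 * j)).filter (fun b => cps j b ∈ N (cps j a)) else ∅,
      fun a b => ?_⟩
    by_cases ha : a < 4 * j
    · simp only [if_pos ha, mem_filter, mem_range]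
      exact ⟨fun h => ⟨ha, h⟩, fun h => h.2⟩
    · simp only [if_neg ha, notMem_empty, false_iff]
      exact fun h => ha h.1
  refine ⟨H, ?_, ?_, ?_, ?_⟩
  · intro a b hb
    obtain ⟨ha, hb', hn⟩ := (hH a b).1 hb
    exact (hH b a).2 ⟨hb', ha, h1 _ (cps_lt ha) _ hn⟩
  · intro a ha
    obtain ⟨ha', -, hn⟩ := (hH a a).1 ha
    exact (h2 _ (cps_lt ha') _ hn).2 rfl
  · intro a b hb
    obtain ⟨ha, hb', hn⟩ := (hH a b).1 hb
    refine ⟨ha, hb', ?_⟩
    have h4 := (h2 _ (cps_lt ha) _ hn).2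
    rwa [cps_mod ha, cps_mod hb'] at h4
  · intro a ha
    rw [← h3 _ (cps_lt ha)]
    refine Finset.card_bij (fun b _ => cps j b) ?_ ?_ ?_
    · intro b hb
      exact ((hH a b).1 hb).2.2
    · intro b hb b' hb' he
      exact cps_inj ((hH a b).1 hb).2.1 ((hH a b').1 hb').2.1 he
    · intro y hy
      obtain ⟨b, hb, rfl⟩ := cps_surj (h2 _ (cps_lt ha) _ hy).1
      exact ⟨b, (hH a b).2 ⟨ha, hb, hy⟩, rfl⟩

/-- the circulant graph -/
private def cN (j : ℕ) (C : Finset ℕ) (x : ℕ) : Finset ℕ := C.image (fun c => (x + c) % (4 * j))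

private theorem cN_sym {j : ℕ} {C : Finset ℕ} (hC : ∀ c ∈ C, 1 ≤ c ∧ c < 4 * j ∧ 4 * j - c ∈ C ∧ ¬ j ∣ c)
    {x : ℕ} (hx : x < 4 * j) {y : ℕ} (hy : y ∈ cN j C x) : x ∈ cN j C y := by
  obtain ⟨c, hc, rfl⟩ := mem_image.1 hy
  obtain ⟨h1, h2, h3, -⟩ := hC c hc
  refine mem_image.2 ⟨4 * j - c, h3, ?_⟩
  show ((x + c) % (4 * j) + (4 * j - c)) % (4 * j) = x
  rw [Nat.mod_add_mod, show x + c + (4 * j - c) = x + 4 * j by omega, Nat.add_mod_right, Nat.mod_eq_of_lt hx]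

private theorem cN_ne {j : ℕ} {C : Finset ℕ} (hC : ∀ c ∈ C, 1 ≤ c ∧ c < 4 * j ∧ 4 * j - c ∈ C ∧ ¬ j ∣ c)
    {x : ℕ} (hx : x < 4 * j) {y : ℕ} (hy : y ∈ cN j C x) : y < 4 * j ∧ x % j ≠ y % j := by
  obtain ⟨c, hc, rfl⟩ := mem_image.1 hy
  obtain ⟨h1, h2, h3, h4⟩ := hC c hc
  refine ⟨Nat.mod_lt _ (by omega), fun h => h4 ?_⟩
  rw [Nat.mod_mod_of_dvd _ (Dvd.intro_left 4 rfl)] at h
  have h5 := (Nat.modEq_iff_dvd' (Nat.le_add_right x c)).1 h
  rwa [Nat.add_sub_cancel_left] at h5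

private theorem cN_card {j : ℕ} {C : Finset ℕ} (hC : ∀ c ∈ C, 1 ≤ c ∧ c < 4 * j ∧ 4 * j - c ∈ C ∧ ¬ j ∣ c)
    (x : ℕ) : (cN j C x).card = C.card := by
  refine card_image_of_injOn ?_
  intro c hc c' hc' h
  have h1 : x + c ≡ x + c' [MOD 4 * j] := h
  have h2 := Nat.ModEq.add_left_cancel' x h1
  have h3 : c % (4 * j) = c' % (4 * j) := h2
  rwa [Nat.mod_eq_of_lt (hC c hc).2.1, Nat.mod_eq_of_lt (hC c' hc').2.1] at h3

private theorem cC {j m r : ℕ} (hr : m + r + 2 ≤ 2 * j) (hj : r < j) :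
    ∃ C : Finset ℕ, (∀ c ∈ C, 1 ≤ c ∧ c < 4 * j ∧ 4 * j - c ∈ C ∧ ¬ j ∣ c) ∧
      (∀ c ∈ C, 1 + r ≤ c ∧ c + 1 + r ≤ 4 * j) ∧ C.card = 2 * m := by
  have h1 : m ≤ ((Ico (1 + r) (2 * j)).erase j).card := by
    rw [card_erase_of_mem (mem_Ico.2 ⟨by omega, by omega⟩), Nat.card_Ico]
    omega
  obtain ⟨E, hE, hm⟩ := exists_subset_card_eq h1
  have hE1 : ∀ c ∈ E, c ≠ j ∧ 1 + r ≤ c ∧ c < 2 * j := by
    intro c hc
    have h2 := hE hc
    rw [mem_erase, mem_Ico] at h2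
    exact h2
  have hd1 : ∀ c ∈ E, ¬ j ∣ c := by
    rintro c hc ⟨k, rfl⟩
    obtain ⟨h2, h3, h4⟩ := hE1 _ hc
    have h5 : k < 2 := by
      by_contra h
      have h6 : j * 2 ≤ j * k := Nat.mul_le_mul_left _ (by omega)
      omega
    rcases Nat.lt_or_ge k 1 with h6 | h6
    · have h7 : k = 0 := by omega
      rw [h7] at h3
      omega
    · have h7 : k = 1 := by omega
      rw [h7] at h2
      omega
  have hd2 : ∀ c ∈ E, ¬ j ∣ 4 * j - c := by
    intro c hc h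
    have h2 : j ∣ 4 * j := Dvd.intro_left 4 rfl
    have h3 := (Nat.dvd_sub h2 h)
    rw [show 4 * j - (4 * j - c) = c by have := (hE1 c hc).2.2; omega] at h3
    exact hd1 c hc h3
  refine ⟨E ∪ E.image (fun c => 4 * j - c), ?_, ?_, ?_⟩
  · intro c hc
    rw [mem_union, mem_image] at hc
    rcases hc with hc | ⟨c', hc', rfl⟩
    · obtain ⟨h2, h3, h4⟩ := hE1 c hc
      exact ⟨by omega, by omega, mem_union_right _ (mem_image.2 ⟨c, hc, rfl⟩), hd1 c hc⟩
    · obtain ⟨h2, h3, h4⟩ := hE1 c' hc'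
      refine ⟨by omega, by omega, mem_union_left _ ?_, hd2 c' hc'⟩
      rw [show 4 * j - (4 * j - c') = c' by omega]
      exact hc'
  · intro c hc
    rw [mem_union, mem_image] at hc
    rcases hc with hc | ⟨c', hc', rfl⟩
    · obtain ⟨h2, h3, h4⟩ := hE1 c hc
      omega
    · obtain ⟨h2, h3, h4⟩ := hE1 c' hc'
      omega
  · rw [card_union_of_disjoint, card_image_of_injOn, hm]
    · omega
    · intro c hc c' hc' h
      have h2 := (hE1 c hc).2.2
      have h3 := (hE1 c' hc').2.2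
      have h4 : 4 * j - c = 4 * j - c' := h
      omega
    · rw [disjoint_left]
      intro c hc hc0
      obtain ⟨c', hc', rfl⟩ := mem_image.1 hc0
      have h2 := (hE1 _ hc).2.2
      have h3 := (hE1 c' hc').2.2
      omega

/-- the perfect matching of the positions -/
private def cmt (x : ℕ) : ℕ := if x % 2 = 0 then x + 1 else x - 1

private theorem cmt_cmt (x : ℕ) : cmt (cmt x) = x := by
  unfold cmt
  split_ifs <;> omega

private theorem cmod {n x c : ℕ} (hx : x < n) (hc : c < n) :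
    (x + c) % n = x + c ∧ x + c < n ∨ (x + c) % n = x + c - n ∧ n ≤ x + c := by
  rcases Nat.lt_or_ge (x + c) n with h | h
  · exact Or.inl ⟨Nat.mod_eq_of_lt h, h⟩
  · right
    rw [Nat.mod_eq_sub_mod h, Nat.mod_eq_of_lt (by omega)]
    exact ⟨rfl, h⟩

theorem circ (j h : ℕ) (hj : 1 ≤ j) (hh : h + 4 ≤ 4 * j) : ∃ H : ℕ → Finset ℕ,
    (∀ a b, b ∈ H a → a ∈ H b) ∧ (∀ a, a ∉ H a) ∧
    (∀ a b, b ∈ H a → a < 4 * j ∧ b < 4 * j ∧ a / 4 ≠ b / 4) ∧ ∀ a < 4 * j, (H a).card = h := by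
  rcases Nat.even_or_odd' h with ⟨m, rfl | rfl⟩
  · obtain ⟨C, hC, -, hm⟩ := cC (j := j) (m := m) (r := 0) (by omega) (by omega)
    refine cc_tr j _ (cN j C) (fun x hx y hy => cN_sym hC hx hy) (fun x hx y hy => cN_ne hC hx hy)
      (fun x hx => ?_)
    rw [cN_card hC, hm]
  · obtain ⟨C, hC, hC2, hm⟩ := cC (j := j) (m := m) (r := 1) (by omega) (by omega)
    have hlt : ∀ x < 4 * j, cmt x < 4 * j := by
      intro x hx
      unfold cmt
      split_ifs <;> omega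
    have hne : ∀ x < 4 * j, x % j ≠ cmt x % j := by
      intro x hx h
      unfold cmt at h
      split_ifs at h with h0
      · have h5 := (Nat.modEq_iff_dvd' (Nat.le_add_right x 1)).1 h
        rw [Nat.add_sub_cancel_left] at h5
        have h6 := Nat.le_of_dvd (by norm_num) h5
        omega
      · have h5 := (Nat.modEq_iff_dvd' (Nat.sub_le x 1)).1 h.symm
        rw [show x - (x - 1) = 1 by omega] at h5
        have h6 := Nat.le_of_dvd (by norm_num) h5
        omega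
    refine cc_tr j _ (fun x => insert (cmt x) (cN j C x)) (fun x hx y hy => ?_) (fun x hx y hy => ?_)
      (fun x hx => ?_)
    · rcases mem_insert.1 hy with rfl | hy
      · rw [cmt_cmt]
        exact mem_insert_self _ _
      · exact mem_insert_of_mem (cN_sym hC hx hy)
    · rcases mem_insert.1 hy with rfl | hy
      · exact ⟨hlt x hx, hne x hx⟩
      · exact cN_ne hC hx hy
    · rw [card_insert_of_notMem, cN_card hC, hm]
      intro h
      obtain ⟨c, hc, he⟩ := mem_image.1 h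
      have h1 := hC2 c hc
      have h2 := (hC c hc).2.1
      have he' : (x + c) % (4 * j) = cmt x := he
      unfold cmt at he'
      rcases cmod hx h2 with ⟨h3, h4⟩ | ⟨h3, h4⟩ <;> rw [h3] at he' <;> split_ifs at he' <;> omega

end Pool.Agent.Helper68.OC
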