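import Mathlib

/-! OC-Nrg. Almost regular graphs avoiding a sparse graph. ELEMENTARY (no cores needed).

PLAN. Work with finite sets of edges `F : Finset (Sym2 ℤ)` (no loops, inside `V`, no edge `s(a,b)` with
`K a b`), `deg F t = (F.filter (t ∈ ·)).card ≤ h t`. Take such an `F` with the maximal number of edges (the
numbers are bounded by `∑ h`, or by the number of all pairs). Suppose some degree is `< h`; the sum of the
`h t - deg F t` over `V` is even and positive, so there are `u, v ∈ V` (maybe `u = v`) with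
`deg F t + [t = u] + [t = v] ≤ h t` for all `t`.
`A` = allowed non-neighbours of `u` (`w ∈ V`, `w ≠ u`, `s(u,w) ∉ F`, not `K u w`), `B` the same for `v`.
`|A|, |B| ≥ |V| - k - Δ`  (at most `k - 1` neighbours, `≤ Δ` forbidden, and `u` itself).
 (1) if `u ≠ v` then `v ∉ A` (add `uv`).
 (2) every `w ∈ A` is saturated, `deg F w = h w` (if `w ≠ v`: else add `uw` — note that then
     `deg w + 1 ≤ h w`; if `w = v` use (1)); the same for `B`.
 (3) if `w ∈ A`, `s(w,x) ∈ F` then `x ∉ B`: otherwise replace `wx` by `uw, xv` (new edges are distinct: `uw = xv`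
     would give `u = x`, `w = v`, contradiction with (1), resp. `w ≠ u` when `u = v`).
     So `N(A) ∩ B = ∅` and by symmetry `N(B) ∩ A = ∅`.
 (4) if `w ∈ A`, `w' ∈ B` (`w ≠ w'` in case `u = v`), `s(w,x), s(w',y) ∈ F`, `x ≠ y`, then `xy ∈ F` or `K x y`:
     otherwise replace `wx, w'y` by `uw, xy, w'v`. (The two removed edges are distinct, since `wx = yw'` means
     `w = w', x = y` or `w = y`, `x = w'`, and `y ∉ A` by (3). The three new edges are distinct: `uw = xy` would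
     need `y = w` or `x = w`; `xy = w'v` would need `x = w'` (but `x ∉ B`) or `y = w'`; `uw = w'v` would need
     `u = v, w = w'` or `w = v`, `u = w'`, excluded by (1). They are not in `F`.)
 The degree of `t` in the new set is `deg t - [t=w] - [t=x] - [t=w'] - [t=y] + [t=u] + [t=w] + [t=x] + [t=y] +
     [t=w'] + [t=v]`: one lemma `deg (F \ R ∪ S) = deg F - deg R + deg S` for `R ⊆ F`, `S` disjoint from `F`, and
     `deg {e₁, e₂, e₃}` as a sum.
 FIRST ALTERNATIVE `(k+Δ)(Δ+3) < (|V|-k-Δ)(k-2)` (so `k ≥ 3`): count the edges between `A` and `V \ B ⊇ N(A)`,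
     `|V \ B| ≤ k + Δ`: at least `|A| (k-2)` by (2); so some `x` has at least `Δ + 4` neighbours in `A`. Take any
     `w' ∈ B` (in case `u = v`: any; there is a neighbour `w ≠ w'` of `x` in `A` as `Δ + 4 ≥ 2`), its `≥ k - 2`
     neighbours `y` are outside `A` by (3), and by (4) all of them except `x` are neighbours of `x` or `K`-related
     to `x` (at most `Δ`). So `deg x ≥ (Δ + 4) + (k - 2) - 1 - Δ = k + 1 > k`, contradiction.
 SECOND ALTERNATIVE `2k + 2Δ + E < |V|`, `1 ≤ k`: `S = {w ∈ A ∩ B, h w = k}`, all its vertices have exactly `k`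
     neighbours, all in `V \ (A ∪ B)` by (3), whose vertices have at most `k` neighbours: `|S| ≤ |V \ (A ∪ B)|`,
     `|S| ≥ |A ∩ B| - E`, hence `|A| + |B| ≤ |V| + E`, contradiction with `|A|, |B| ≥ |V| - k - Δ`.
Finally `H a = {b : s(a,b) ∈ F}` (filter of `V`). -/

namespace Pool.Agent.Helper68.OC

open Finset

open Classical in
private noncomputable def nrg_d (F : Finset (Sym2 ℤ)) (t : ℤ) : ℕ := ∑ e ∈ F, if t ∈ e then 1 else 0

private def nrg_i (t a : ℤ) : ℕ := if t = a then 1 else 0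

private theorem nrg_i_self (t : ℤ) : nrg_i t t = 1 := if_pos rfl

private theorem nrg_i_ne {t a : ℤ} (h : t ≠ a) : nrg_i t a = 0 := if_neg h

private theorem nrg_d_single {a b : ℤ} (hab : a ≠ b) (t : ℤ) :
    nrg_d {s(a, b)} t = nrg_i t a + nrg_i t b := by
  classical
  unfold nrg_d nrg_i
  rw [Finset.sum_singleton]
  by_cases h1 : t = a
  · have h2 : t ≠ b := fun h => hab (h1 ▸ h)
    rw [if_pos (Sym2.mem_iff.2 (Or.inl h1)), if_pos h1, if_neg h2]
  · by_cases h2 : t = b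
    · rw [if_pos (Sym2.mem_iff.2 (Or.inr h2)), if_neg h1, if_pos h2]
    · rw [if_neg h1, if_neg h2, if_neg]
      intro h
      rcases Sym2.mem_iff.1 h with h | h
      · exact h1 h
      · exact h2 h

private theorem nrg_d_insert {e : Sym2 ℤ} {S : Finset (Sym2 ℤ)} (h : e ∉ S) (t : ℤ) :
    nrg_d (insert e S) t = nrg_d {e} t + nrg_d S t := by
  classical
  unfold nrg_d
  rw [Finset.sum_insert h, Finset.sum_singleton]

private theorem nrg_d_empty (t : ℤ) : nrg_d ∅ t = 0 := by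
  unfold nrg_d
  exact Finset.sum_empty

/-- admissible edges -/
private def nrg_a (V : Finset ℤ) (K : ℤ → ℤ → Prop) (e : Sym2 ℤ) : Prop :=
  ∀ a b, e = s(a, b) → a ≠ b ∧ a ∈ V ∧ b ∈ V ∧ ¬ K a b

private theorem nrg_a_mk {V : Finset ℤ} {K : ℤ → ℤ → Prop} (hK : ∀ a b, K a b → K b a) {a b : ℤ}
    (hab : a ≠ b) (ha : a ∈ V) (hb : b ∈ V) (hk : ¬ K a b) : nrg_a V K s(a, b) := by
  intro c d h
  rcases Sym2.eq_iff.1 h with ⟨rfl, rfl⟩ | ⟨rfl, rfl⟩
  · exact ⟨hab, ha, hb, hk⟩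
  · exact ⟨hab.symm, hb, ha, fun h => hk (hK _ _ h)⟩

private structure nrg_ok (V : Finset ℤ) (K : ℤ → ℤ → Prop) (h : ℤ → ℕ) (F : Finset (Sym2 ℤ)) : Prop where
  adm : ∀ e ∈ F, nrg_a V K e
  le : ∀ t ∈ V, nrg_d F t ≤ h t

private structure nrg_max (V : Finset ℤ) (K : ℤ → ℤ → Prop) (h : ℤ → ℕ) (F : Finset (Sym2 ℤ)) : Prop where
  ok : nrg_ok V K h F
  max : ∀ F', nrg_ok V K h F' → F'.card ≤ F.card

private theorem nrg_exists (V : Finset ℤ) (K : ℤ → ℤ → Prop) (h : ℤ → ℕ) : ∃ F, nrg_max V K h F := by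
  classical
  obtain ⟨F, hF, hm⟩ := Finset.exists_max_image (V.sym2.powerset.filter (nrg_ok V K h)) Finset.card
    ⟨∅, Finset.mem_filter.2 ⟨Finset.empty_mem_powerset _, ⟨fun e he => absurd he (Finset.notMem_empty e),
      fun t _ => by rw [nrg_d_empty]; exact Nat.zero_le _⟩⟩⟩
  refine ⟨F, (Finset.mem_filter.1 hF).2, ?_⟩
  intro F' hF'
  refine hm F' (Finset.mem_filter.2 ⟨Finset.mem_powerset.2 ?_, hF'⟩)
  intro e he
  induction e using Sym2.ind with
  | _ a b =>
    obtain ⟨-, ha, hb, -⟩ := hF'.adm _ he a b rfl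
    exact Finset.mk_mem_sym2_iff.2 ⟨ha, hb⟩

private theorem nrg_step {V : Finset ℤ} {K : ℤ → ℤ → Prop} {h : ℤ → ℕ} {F R S : Finset (Sym2 ℤ)}
    (hF : nrg_max V K h F) (hR : R ⊆ F) (hS : ∀ e ∈ S, nrg_a V K e) (hSF : ∀ e ∈ S, e ∉ F)
    (hc : R.card < S.card) (hd : ∀ t ∈ V, nrg_d S t + nrg_d F t ≤ h t + nrg_d R t) : False := by
  classical
  have hdis : Disjoint (F \ R) S := by
    rw [Finset.disjoint_left]
    intro e he hs
    exact hSF e hs (Finset.mem_sdiff.1 he).1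
  have h1 : nrg_ok V K h (F \ R ∪ S) := by
    refine ⟨?_, ?_⟩
    · intro e he
      rcases Finset.mem_union.1 he with h1 | h1
      · exact hF.ok.adm e (Finset.mem_sdiff.1 h1).1
      · exact hS e h1
    · intro t ht
      have h3 := hd t ht
      have e1 : nrg_d (F \ R ∪ S) t = nrg_d (F \ R) t + nrg_d S t := Finset.sum_union hdis
      have e2 : nrg_d (F \ R) t + nrg_d R t = nrg_d F t := Finset.sum_sdiff hR
      omega
  have h2 := hF.max _ h1
  rw [Finset.card_union_of_disjoint hdis, Finset.card_sdiff_of_subset hR] at h2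
  have h3 := Finset.card_le_card hR
  omega

/-- possible new neighbours of `u` -/
private def nrg_A (V : Finset ℤ) (K : ℤ → ℤ → Prop) (F : Finset (Sym2 ℤ)) (u w : ℤ) : Prop :=
  w ∈ V ∧ w ≠ u ∧ s(u, w) ∉ F ∧ ¬ K u w

private theorem nrg_m1 {V : Finset ℤ} {K : ℤ → ℤ → Prop} (hK : ∀ a b, K a b → K b a) {h : ℤ → ℕ}
    {F : Finset (Sym2 ℤ)} (hF : nrg_max V K h F) {u v : ℤ} (hu : u ∈ V)
    (huv : ∀ t ∈ V, nrg_d F t + nrg_i t u + nrg_i t v ≤ h t) : ¬ nrg_A V K F u v := by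
  rintro ⟨hv, hne, h1, h2⟩
  refine nrg_step hF (R := ∅) (S := {s(u, v)}) (Finset.empty_subset _) ?_ ?_ ?_ ?_
  · intro e he
    rw [Finset.mem_singleton.1 he]
    exact nrg_a_mk hK (Ne.symm hne) hu hv h2
  · intro e he
    rw [Finset.mem_singleton.1 he]
    exact h1
  · rw [Finset.card_empty, Finset.card_singleton]
    exact Nat.one_pos
  · intro t ht
    have := huv t ht
    rw [nrg_d_single (Ne.symm hne), nrg_d_empty]
    omega

private theorem nrg_m2 {V : Finset ℤ} {K : ℤ → ℤ → Prop} (hK : ∀ a b, K a b → K b a) {h : ℤ → ℕ}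
    {F : Finset (Sym2 ℤ)} (hF : nrg_max V K h F) {u v w : ℤ} (hu : u ∈ V)
    (huv : ∀ t ∈ V, nrg_d F t + nrg_i t u + nrg_i t v ≤ h t) (hw : nrg_A V K F u w) :
    nrg_d F w = h w := by
  refine le_antisymm (hF.ok.le w hw.1) ?_
  by_contra hc
  push Not at hc
  refine nrg_m1 hK hF (u := u) (v := w) hu ?_ hw
  intro t ht
  by_cases h1 : t = w
  · have h2 : t ≠ u := fun h => hw.2.1 (h1 ▸ h)
    rw [nrg_i_ne h2, h1, nrg_i_self]
    omega
  · have := huv t ht
    rw [nrg_i_ne h1]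
    omega

private theorem nrg_m3 {V : Finset ℤ} {K : ℤ → ℤ → Prop} (hK : ∀ a b, K a b → K b a) {h : ℤ → ℕ}
    {F : Finset (Sym2 ℤ)} (hF : nrg_max V K h F) {u v w x : ℤ} (hu : u ∈ V) (hv : v ∈ V)
    (huv : ∀ t ∈ V, nrg_d F t + nrg_i t u + nrg_i t v ≤ h t) (hw : nrg_A V K F u w)
    (hx : nrg_A V K F v x) : s(w, x) ∉ F := by
  intro hwx
  have hwx' : w ≠ x := (hF.ok.adm _ hwx w x rfl).1
  have hd : s(u, w) ∉ ({s(v, x)} : Finset (Sym2 ℤ)) := by
    intro hc
    rcases Sym2.eq_iff.1 (Finset.mem_singleton.1 hc) with ⟨-, h2⟩ | ⟨h1, h2⟩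
    · exact hwx' h2
    · rw [h2] at hw
      exact nrg_m1 hK hF hu huv hw
  refine nrg_step hF (R := {s(w, x)}) (S := insert s(u, w) {s(v, x)}) ?_ ?_ ?_ ?_ ?_
  · intro e he
    rw [Finset.mem_singleton.1 he]
    exact hwx
  · intro e he
    rcases Finset.mem_insert.1 he with h1 | h1
    · rw [h1]
      exact nrg_a_mk hK hw.2.1.symm hu hw.1 hw.2.2.2
    · rw [Finset.mem_singleton.1 h1]
      exact nrg_a_mk hK hx.2.1.symm hv hx.1 hx.2.2.2
  · intro e he
    rcases Finset.mem_insert.1 he with h1 | h1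
    · rw [h1]
      exact hw.2.2.1
    · rw [Finset.mem_singleton.1 h1]
      exact hx.2.2.1
  · rw [Finset.card_insert_of_notMem hd, Finset.card_singleton, Finset.card_singleton]
    omega
  · intro t ht
    have := huv t ht
    rw [nrg_d_insert hd, nrg_d_single hw.2.1.symm, nrg_d_single hx.2.1.symm, nrg_d_single hwx']
    omega

private theorem nrg_m4 {V : Finset ℤ} {K : ℤ → ℤ → Prop} (hK : ∀ a b, K a b → K b a) {h : ℤ → ℕ}
    {F : Finset (Sym2 ℤ)} (hF : nrg_max V K h F) {u v w w' x y : ℤ} (hu : u ∈ V) (hv : v ∈ V)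
    (huv : ∀ t ∈ V, nrg_d F t + nrg_i t u + nrg_i t v ≤ h t) (hw : nrg_A V K F u w)
    (hw' : nrg_A V K F v w') (hww : w ≠ w') (hx : s(w, x) ∈ F) (hy : s(w', y) ∈ F) (hxy : x ≠ y)
    (hF' : s(x, y) ∉ F) : K x y := by
  by_contra hk
  have hwx := hF.ok.adm _ hx w x rfl
  have hwy := hF.ok.adm _ hy w' y rfl
  have hm3 : ∀ {a b}, nrg_A V K F u a → nrg_A V K F v b → s(a, b) ∉ F :=
    fun ha hb => nrg_m3 hK hF hu hv huv ha hb
  have hyA : w ≠ y := by
    intro h1
    apply hm3 hw hw'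
    rw [h1, Sym2.eq_swap]
    exact hy
  have hxB : w' ≠ x := by
    intro h1
    apply hm3 hw hw'
    rw [h1]
    exact hx
  have hR : s(w, x) ∉ ({s(w', y)} : Finset (Sym2 ℤ)) := by
    intro hc
    rcases Sym2.eq_iff.1 (Finset.mem_singleton.1 hc) with ⟨h1, -⟩ | ⟨h1, -⟩
    · exact hww h1
    · exact hyA h1
  have hS2 : s(x, y) ∉ ({s(v, w')} : Finset (Sym2 ℤ)) := by
    intro hc
    rcases Sym2.eq_iff.1 (Finset.mem_singleton.1 hc) with ⟨-, h1⟩ | ⟨h1, -⟩
    · exact hwy.1 h1.symm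
    · exact hxB h1.symm
  have hS1 : s(u, w) ∉ insert s(x, y) ({s(v, w')} : Finset (Sym2 ℤ)) := by
    intro hc
    rcases Finset.mem_insert.1 hc with hc | hc
    · rcases Sym2.eq_iff.1 hc with ⟨-, h1⟩ | ⟨-, h1⟩
      · exact hyA h1
      · exact hwx.1 h1
    · rcases Sym2.eq_iff.1 (Finset.mem_singleton.1 hc) with ⟨-, h1⟩ | ⟨h1, h2⟩
      · exact hww h1
      · rw [h2] at hw
        exact nrg_m1 hK hF hu huv hw
  refine nrg_step hF (R := insert s(w, x) {s(w', y)}) (S := insert s(u, w) (insert s(x, y) {s(v, w')}))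
    ?_ ?_ ?_ ?_ ?_
  · intro e he
    rcases Finset.mem_insert.1 he with h1 | h1
    · rw [h1]
      exact hx
    · rw [Finset.mem_singleton.1 h1]
      exact hy
  · intro e he
    rcases Finset.mem_insert.1 he with h1 | h1
    · rw [h1]
      exact nrg_a_mk hK hw.2.1.symm hu hw.1 hw.2.2.2
    · rcases Finset.mem_insert.1 h1 with h1 | h1
      · rw [h1]
        exact nrg_a_mk hK hxy hwx.2.2.1 hwy.2.2.1 hk
      · rw [Finset.mem_singleton.1 h1]
        exact nrg_a_mk hK hw'.2.1.symm hv hw'.1 hw'.2.2.2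
  · intro e he
    rcases Finset.mem_insert.1 he with h1 | h1
    · rw [h1]
      exact hw.2.2.1
    · rcases Finset.mem_insert.1 h1 with h1 | h1
      · rw [h1]
        exact hF'
      · rw [Finset.mem_singleton.1 h1]
        exact hw'.2.2.1
  · rw [Finset.card_insert_of_notMem hS1, Finset.card_insert_of_notMem hS2, Finset.card_insert_of_notMem hR,
      Finset.card_singleton, Finset.card_singleton]
    omega
  · intro t ht
    have := huv t ht
    rw [nrg_d_insert hS1, nrg_d_insert hS2, nrg_d_insert hR, nrg_d_single hw.2.1.symm,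
      nrg_d_single hw'.2.1.symm, nrg_d_single hxy, nrg_d_single hwx.1, nrg_d_single hwy.1]
    omega

/-- neighbours -/
private def nrg_N (V : Finset ℤ) (F : Finset (Sym2 ℤ)) (x : ℤ) : Finset ℤ := V.filter fun y => s(x, y) ∈ F

private theorem nrg_mem_N {V : Finset ℤ} {K : ℤ → ℤ → Prop} {h : ℤ → ℕ} {F : Finset (Sym2 ℤ)}
    (hF : nrg_ok V K h F) {x y : ℤ} : y ∈ nrg_N V F x ↔ s(x, y) ∈ F := by
  unfold nrg_N
  rw [Finset.mem_filter]
  exact ⟨fun h => h.2, fun h => ⟨(hF.adm _ h x y rfl).2.2.1, h⟩⟩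

private theorem nrg_card_N {V : Finset ℤ} {K : ℤ → ℤ → Prop} {h : ℤ → ℕ} {F : Finset (Sym2 ℤ)}
    (hF : nrg_ok V K h F) (x : ℤ) : (nrg_N V F x).card = nrg_d F x := by
  classical
  unfold nrg_d
  rw [← Finset.card_filter]
  have hinj : Set.InjOn (fun y : ℤ => s(x, y)) (nrg_N V F x) := by
    intro y _ y' _ hyy
    exact Sym2.congr_right.1 hyy
  rw [← Finset.card_image_of_injOn hinj]
  congr 1
  ext e
  rw [Finset.mem_image, Finset.mem_filter]
  constructor
  · rintro ⟨y, hy, rfl⟩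
    exact ⟨(nrg_mem_N hF).1 hy, Sym2.mem_mk_left _ _⟩
  · rintro ⟨he, hx⟩
    obtain ⟨y, rfl⟩ := hx
    exact ⟨y, (nrg_mem_N hF).2 he, rfl⟩

private theorem nrg_hand {V : Finset ℤ} {K : ℤ → ℤ → Prop} {h : ℤ → ℕ} {F : Finset (Sym2 ℤ)}
    (hF : nrg_ok V K h F) : ∑ t ∈ V, nrg_d F t = 2 * F.card := by
  classical
  unfold nrg_d
  rw [Finset.sum_comm]
  have : ∀ e ∈ F, (∑ t ∈ V, if t ∈ e then 1 else 0) = 2 := by
    intro e he
    induction e using Sym2.ind with
    | _ a b =>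
      obtain ⟨hab, ha, hb, -⟩ := hF.adm _ he a b rfl
      rw [← Finset.card_filter]
      have e1 : V.filter (fun t => t ∈ s(a, b)) = {a, b} := by
        ext t
        rw [Finset.mem_filter, Sym2.mem_iff, Finset.mem_insert, Finset.mem_singleton]
        constructor
        · exact fun h => h.2
        · rintro (rfl | rfl)
          · exact ⟨ha, Or.inl rfl⟩
          · exact ⟨hb, Or.inr rfl⟩
      rw [e1, Finset.card_pair hab]
  rw [Finset.sum_congr rfl this, Finset.sum_const, smul_eq_mul, mul_comm]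

private theorem nrg_uv {V : Finset ℤ} {K : ℤ → ℤ → Prop} {h : ℤ → ℕ} {F : Finset (Sym2 ℤ)}
    (hF : nrg_ok V K h F) (hev : Even (∑ a ∈ V, h a)) {u : ℤ} (hu : u ∈ V) (hlt : nrg_d F u < h u) :
    ∃ v ∈ V, ∀ t ∈ V, nrg_d F t + nrg_i t u + nrg_i t v ≤ h t := by
  by_cases h2 : nrg_d F u + 2 ≤ h u
  · refine ⟨u, hu, fun t ht => ?_⟩
    by_cases h3 : t = u
    · rw [h3, nrg_i_self]
      omega
    · rw [nrg_i_ne h3]
      exact hF.le t ht
  · by_cases h3 : ∃ v ∈ V, v ≠ u ∧ nrg_d F v < h v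
    · obtain ⟨v, hv, hvu, hvl⟩ := h3
      refine ⟨v, hv, fun t ht => ?_⟩
      by_cases h4 : t = u
      · have h5 : t ≠ v := fun h => hvu (h ▸ h4)
        rw [nrg_i_ne h5, h4, nrg_i_self]
        omega
      · by_cases h5 : t = v
        · rw [nrg_i_ne h4, h5, nrg_i_self]
          omega
        · rw [nrg_i_ne h4, nrg_i_ne h5]
          exact hF.le t ht
    · exfalso
      push Not at h3
      have h4 : ∑ t ∈ V, h t = ∑ t ∈ V, nrg_d F t + 1 := by
        rw [← Finset.add_sum_erase V h hu, ← Finset.add_sum_erase V (nrg_d F) hu]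
        have h5 : ∑ t ∈ V.erase u, h t = ∑ t ∈ V.erase u, nrg_d F t := by
          refine Finset.sum_congr rfl fun t ht => ?_
          exact le_antisymm (h3 t (Finset.mem_of_mem_erase ht) (Finset.ne_of_mem_erase ht))
            (hF.le t (Finset.mem_of_mem_erase ht))
        rw [h5]
        omega
      rw [h4, nrg_hand hF] at hev
      obtain ⟨r, hr⟩ := hev
      omega

private theorem nrg_cA {V : Finset ℤ} {K : ℤ → ℤ → Prop} [DecidableRel K] {h : ℤ → ℕ} {F : Finset (Sym2 ℤ)}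
    (hF : nrg_ok V K h F) {k Δ : ℕ} {u : ℤ} (hlt : nrg_d F u < k)
    (hd : (V.filter fun b => b ≠ u ∧ K u b).card ≤ Δ) {A : Finset ℤ}
    (hA : ∀ w, w ∈ A ↔ nrg_A V K F u w) : (V \ A).card ≤ k + Δ := by
  have h1 : V \ A ⊆ insert u (nrg_N V F u ∪ (V.filter fun b => b ≠ u ∧ K u b)) := by
    intro w hw
    obtain ⟨hwV, hwA⟩ := Finset.mem_sdiff.1 hw
    rw [hA] at hwA
    by_cases h1 : w = u
    · rw [h1]
      exact Finset.mem_insert_self _ _
    · refine Finset.mem_insert_of_mem (Finset.mem_union.2 ?_)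
      by_cases h2 : s(u, w) ∈ F
      · exact Or.inl ((nrg_mem_N hF).2 h2)
      · refine Or.inr (Finset.mem_filter.2 ⟨hwV, h1, ?_⟩)
        by_contra h3
        exact hwA ⟨hwV, h1, h2, h3⟩
  have h2 := Finset.card_le_card h1
  have h3 := Finset.card_insert_le u (nrg_N V F u ∪ (V.filter fun b => b ≠ u ∧ K u b))
  have h4 := Finset.card_union_le (nrg_N V F u) (V.filter fun b => b ≠ u ∧ K u b)
  rw [nrg_card_N hF] at h4
  omega

theorem nrg {V : Finset ℤ} (K : ℤ → ℤ → Prop) (hK : ∀ a b, K a b → K b a) (Δ k E : ℕ)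
    [DecidableRel K]
    (hd : ∀ a ∈ V, (V.filter fun b => b ≠ a ∧ K a b).card ≤ Δ) (h : ℤ → ℕ)
    (h1 : ∀ a ∈ V, h a ≤ k) (h2 : ∀ a ∈ V, k ≤ h a + 2)
    (hE : (V.filter fun a => h a ≠ k).card ≤ E) (hev : Even (∑ a ∈ V, h a))
    (hc : (k + Δ) * (Δ + 3) < (V.card - k - Δ) * (k - 2) ∨ (2 * k + 2 * Δ + E < V.card ∧ 1 ≤ k)) :
    ∃ H : ℤ → Finset ℤ, (∀ a b, b ∈ H a → a ∈ H b) ∧ (∀ a, a ∉ H a) ∧
      (∀ a b, b ∈ H a → a ∈ V ∧ b ∈ V ∧ ¬ K a b) ∧ ∀ a ∈ V, (H a).card = h a := by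
  classical
  obtain ⟨F, hF⟩ := nrg_exists V K h
  by_cases hall : ∀ a ∈ V, nrg_d F a = h a
  · refine ⟨nrg_N V F, ?_, ?_, ?_, ?_⟩
    · intro a b hb
      rw [nrg_mem_N hF.ok] at hb ⊢
      rw [Sym2.eq_swap]
      exact hb
    · intro a ha
      rw [nrg_mem_N hF.ok] at ha
      exact (hF.ok.adm _ ha a a rfl).1 rfl
    · intro a b hb
      rw [nrg_mem_N hF.ok] at hb
      exact (hF.ok.adm _ hb a b rfl).2
    · intro a ha
      rw [nrg_card_N hF.ok]
      exact hall a ha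
  exfalso
  push Not at hall
  obtain ⟨u, hu, hune⟩ := hall
  have hult : nrg_d F u < h u := lt_of_le_of_ne (hF.ok.le u hu) hune
  obtain ⟨v, hv, huv⟩ := nrg_uv hF.ok hev hu hult
  have hvlt : nrg_d F v < h v := by
    have := huv v hv
    rw [nrg_i_self] at this
    omega
  have hvu : ∀ t ∈ V, nrg_d F t + nrg_i t v + nrg_i t u ≤ h t := by
    intro t ht
    have := huv t ht
    omega
  obtain ⟨A, hA⟩ : ∃ A : Finset ℤ, ∀ w, w ∈ A ↔ nrg_A V K F u w :=
    ⟨V.filter (nrg_A V K F u), fun w => ⟨fun h => (Finset.mem_filter.1 h).2,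
      fun h => Finset.mem_filter.2 ⟨h.1, h⟩⟩⟩
  obtain ⟨B, hB⟩ : ∃ B : Finset ℤ, ∀ w, w ∈ B ↔ nrg_A V K F v w :=
    ⟨V.filter (nrg_A V K F v), fun w => ⟨fun h => (Finset.mem_filter.1 h).2,
      fun h => Finset.mem_filter.2 ⟨h.1, h⟩⟩⟩
  have hAV : A ⊆ V := fun w hw => ((hA w).1 hw).1
  have hBV : B ⊆ V := fun w hw => ((hB w).1 hw).1
  have hcA : (V \ A).card ≤ k + Δ :=
    nrg_cA hF.ok (lt_of_lt_of_le hult (h1 u hu)) (hd u hu) hA
  have hcB : (V \ B).card ≤ k + Δ :=
    nrg_cA hF.ok (lt_of_lt_of_le hvlt (h1 v hv)) (hd v hv) hB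
  have hcA' : (V \ A).card + A.card = V.card := Finset.card_sdiff_add_card_eq_card hAV
  have hcB' : (V \ B).card + B.card = V.card := Finset.card_sdiff_add_card_eq_card hBV
  have hsA : ∀ w ∈ A, (nrg_N V F w).card = h w := fun w hw => by
    rw [nrg_card_N hF.ok]
    exact nrg_m2 hK hF hu huv ((hA w).1 hw)
  have hsB : ∀ w ∈ B, (nrg_N V F w).card = h w := fun w hw => by
    rw [nrg_card_N hF.ok]
    exact nrg_m2 hK hF hv hvu ((hB w).1 hw)
  have hNV : ∀ x, nrg_N V F x ⊆ V := fun x => Finset.filter_subset _ _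
  have hsym : ∀ x y, y ∈ nrg_N V F x → x ∈ nrg_N V F y := by
    intro x y hy
    rw [nrg_mem_N hF.ok] at hy ⊢
    rw [Sym2.eq_swap]
    exact hy
  have hAB : ∀ w ∈ A, ∀ x ∈ nrg_N V F w, x ∉ B := by
    intro w hw x hx hxB
    exact nrg_m3 hK hF hu hv huv ((hA w).1 hw) ((hB x).1 hxB) ((nrg_mem_N hF.ok).1 hx)
  have hBA : ∀ w ∈ B, ∀ x ∈ nrg_N V F w, x ∉ A := fun w hw x hx hxA => hAB x hxA w (hsym _ _ hx) hw
  have hNk : ∀ x ∈ V, (nrg_N V F x).card ≤ k := by
    intro x hx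
    rw [nrg_card_N hF.ok]
    exact (hF.ok.le x hx).trans (h1 x hx)
  rcases hc with hc | ⟨hc, hk⟩
  · -- first alternative
    have hpos : 0 < (V.card - k - Δ) * (k - 2) := lt_of_le_of_lt (Nat.zero_le _) hc
    have hp1 : 0 < V.card - k - Δ := Nat.pos_of_mul_pos_right hpos
    have hp2 : 0 < k - 2 := Nat.pos_of_mul_pos_left hpos
    have hdc := Finset.sum_card_bipartiteAbove_eq_sum_card_bipartiteBelow (s := A) (t := V \ B)
      (fun w x => x ∈ nrg_N V F w)
    have hl : (V.card - k - Δ) * (k - 2) ≤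
        ∑ w ∈ A, (Finset.bipartiteAbove (fun w x => x ∈ nrg_N V F w) (V \ B) w).card := by
      calc (V.card - k - Δ) * (k - 2) ≤ A.card * (k - 2) := Nat.mul_le_mul_right _ (by omega)
        _ = ∑ _w ∈ A, (k - 2) := by rw [Finset.sum_const, smul_eq_mul]
        _ ≤ _ := by
          refine Finset.sum_le_sum fun w hw => ?_
          have e1 : Finset.bipartiteAbove (fun w x => x ∈ nrg_N V F w) (V \ B) w = nrg_N V F w := by
            ext x
            rw [Finset.mem_bipartiteAbove, Finset.mem_sdiff]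
            exact ⟨fun h => h.2, fun h => ⟨⟨hNV w h, hAB w hw x h⟩, h⟩⟩
          rw [e1, hsA w hw]
          have := h2 w (hAV hw)
          omega
    have hex : ∃ x ∈ V \ B, Δ + 3 < (Finset.bipartiteBelow (fun w x => x ∈ nrg_N V F w) A x).card := by
      by_contra hcon
      push Not at hcon
      have h3 : ∑ x ∈ V \ B, (Finset.bipartiteBelow (fun w x => x ∈ nrg_N V F w) A x).card ≤
          (V \ B).card * (Δ + 3) := by
        rw [← smul_eq_mul]
        exact Finset.sum_le_card_nsmul _ _ _ hcon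
      have h4 : (V \ B).card * (Δ + 3) ≤ (k + Δ) * (Δ + 3) := Nat.mul_le_mul_right _ hcB
      omega
    obtain ⟨x, hx, hxc⟩ := hex
    have hxV : x ∈ V := (Finset.mem_sdiff.1 hx).1
    obtain ⟨w', hw'⟩ : B.Nonempty := by
      rw [← Finset.card_pos]
      omega
    -- a neighbour of `x` in `A`, different from `w'`
    have hw : ∃ w ∈ A, x ∈ nrg_N V F w ∧ w ≠ w' := by
      have h3 : 1 < (Finset.bipartiteBelow (fun w x => x ∈ nrg_N V F w) A x).card := by omega
      obtain ⟨w, hw, hww⟩ := Finset.exists_mem_ne h3 w'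
      rw [Finset.mem_bipartiteBelow] at hw
      exact ⟨w, hw.1, hw.2, hww⟩
    obtain ⟨w, hwA, hwx, hww⟩ := hw
    have hsub : Finset.bipartiteBelow (fun w x => x ∈ nrg_N V F w) A x ∪
        ((nrg_N V F w').erase x \ (V.filter fun b => b ≠ x ∧ K x b)) ⊆ nrg_N V F x := by
      intro y hy
      rcases Finset.mem_union.1 hy with hy | hy
      · rw [Finset.mem_bipartiteBelow] at hy
        exact hsym _ _ hy.2
      · rw [Finset.mem_sdiff, Finset.mem_erase, Finset.mem_filter] at hy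
        obtain ⟨⟨hyx, hy⟩, hyK⟩ := hy
        by_contra hyN
        rw [nrg_mem_N hF.ok] at hyN
        refine hyK ⟨hNV _ hy, hyx, ?_⟩
        exact nrg_m4 hK hF hu hv huv ((hA w).1 hwA) ((hB w').1 hw') hww ((nrg_mem_N hF.ok).1 hwx)
          ((nrg_mem_N hF.ok).1 hy) (Ne.symm hyx) hyN
    have hdis : Disjoint (Finset.bipartiteBelow (fun w x => x ∈ nrg_N V F w) A x)
        ((nrg_N V F w').erase x \ (V.filter fun b => b ≠ x ∧ K x b)) := by
      rw [Finset.disjoint_left]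
      intro y hy hy'
      rw [Finset.mem_bipartiteBelow] at hy
      rw [Finset.mem_sdiff, Finset.mem_erase] at hy'
      exact hBA w' hw' y hy'.1.2 hy.1
    have h3 := Finset.card_le_card hsub
    rw [Finset.card_union_of_disjoint hdis] at h3
    have h4 := Finset.le_card_sdiff (V.filter fun b => b ≠ x ∧ K x b) ((nrg_N V F w').erase x)
    have h5 := Finset.pred_card_le_card_erase (s := nrg_N V F w') (a := x)
    have h6 := hsB w' hw'
    have h7 := h2 w' (hBV hw')
    have h8 := hd x hxV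
    have h9 := hNk x hxV
    omega
  · -- second alternative
    have hdc := Finset.sum_card_bipartiteAbove_eq_sum_card_bipartiteBelow
      (s := (A ∩ B).filter fun w => h w = k) (t := V \ (A ∪ B)) (fun w x => x ∈ nrg_N V F w)
    have hl : ∑ w ∈ (A ∩ B).filter (fun w => h w = k),
        (Finset.bipartiteAbove (fun w x => x ∈ nrg_N V F w) (V \ (A ∪ B)) w).card =
        ((A ∩ B).filter fun w => h w = k).card * k := by
      rw [← smul_eq_mul, ← Finset.sum_const]
      refine Finset.sum_congr rfl fun w hw => ?_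
      rw [Finset.mem_filter, Finset.mem_inter] at hw
      obtain ⟨⟨hwA, hwB⟩, hwk⟩ := hw
      have e1 : Finset.bipartiteAbove (fun w x => x ∈ nrg_N V F w) (V \ (A ∪ B)) w = nrg_N V F w := by
        ext x
        rw [Finset.mem_bipartiteAbove, Finset.mem_sdiff, Finset.mem_union]
        refine ⟨fun h => h.2, fun h => ⟨⟨hNV w h, ?_⟩, h⟩⟩
        rintro (h3 | h3)
        · exact hBA w hwB x h h3
        · exact hAB w hwA x h h3
      rw [e1, hsA w hwA, hwk]
    have hr : ∑ x ∈ V \ (A ∪ B), (Finset.bipartiteBelow (fun w x => x ∈ nrg_N V F w)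
        ((A ∩ B).filter fun w => h w = k) x).card ≤ (V \ (A ∪ B)).card * k := by
      rw [← smul_eq_mul]
      refine Finset.sum_le_card_nsmul _ _ _ fun x hx => ?_
      refine (Finset.card_le_card ?_).trans (hNk x (Finset.mem_sdiff.1 hx).1)
      intro y hy
      rw [Finset.mem_bipartiteBelow] at hy
      exact hsym _ _ hy.2
    have h3 : ((A ∩ B).filter fun w => h w = k).card ≤ (V \ (A ∪ B)).card := by
      refine Nat.le_of_mul_le_mul_right ?_ hk
      rw [← hl, hdc]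
      exact hr
    have h4 : ((A ∩ B).filter fun w => h w = k).card + ((A ∩ B).filter fun w => ¬ h w = k).card =
        (A ∩ B).card := Finset.card_filter_add_card_filter_not _
    have h5 : ((A ∩ B).filter fun w => ¬ h w = k).card ≤ E := by
      refine (Finset.card_le_card ?_).trans hE
      exact Finset.filter_subset_filter _ (Finset.inter_subset_left.trans hAV)
    have h6 := Finset.card_union_add_card_inter A B
    have h7 : (V \ (A ∪ B)).card + (A ∪ B).card = V.card :=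
      Finset.card_sdiff_add_card_eq_card (Finset.union_subset hAV hBV)
    omega

end Pool.Agent.Helper68.OC
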