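import Pool.Agent.Helper68.OC.Defs
import Pool.Agent.Helper68.OC.Nrg

/-! OC-Comp. Completing a core to a regular label graph.

PLAN. Take the core `N` on `Icc 1 M` and apply `nrg` (V = `Icc 1 M`, `Δ = 4`, `k = ρ - 1`,
`K a b := b ∈ N a ∨ -b ∈ N a`, `h a = (2 ρ - (N a).card) / 2`). `K` is symmetric (`gr.symm`, `odd`);
the classes `b ≠ a` with `K a b`, `b > 0`: injection `b ↦ b or -b` into the filtered set of the field `kdeg`.
`h a ∈ {k, k-1, k-2}` as the degree is 2, 4 or 6 and `≤ D ≤ 2 ρ`. The sum of `h` is `(2 ρ M - W)/2`: even by the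
divisibility (all degrees are even, so `W` is even).
New neighbourhoods: `N' x = N x ∪ (H |x|).image id ∪ (H |x|).image (-·)` for `x ≠ 0`, `N' 0 = N 0`.
Symmetric: `y ∈ ±H |x|` iff `|y| ∈ H |x|`. Disjointness of the two parts from `N x`: `¬ K |x| |y|`
(use `odd` for negative `x`). The sum over the `H`-part is `0`, its cardinality is `2 h`. For `x < 0` everything
follows from `-x` (or prove the statements for `|x|` and transfer by `IsCore.neg`). -/

namespace Pool.Agent.Helper68.OC

open Finset Pool.Agent.Helper74.Hc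

/-- the new neighbourhoods -/
private def compN (N H : ℤ → Finset ℤ) (x : ℤ) : Finset ℤ :=
  N x ∪ (H |x| ∪ (H |x|).image fun y => -y)

private theorem comp_mem {N H : ℤ → Finset ℤ} (hpos : ∀ a b, b ∈ H a → 0 < b) {x y : ℤ} :
    y ∈ compN N H x ↔ y ∈ N x ∨ |y| ∈ H |x| := by
  unfold compN
  rw [mem_union, mem_union, mem_image]
  constructor
  · rintro (h | h | ⟨b, hb, rfl⟩)
    · exact Or.inl h
    · right
      rwa [abs_of_pos (hpos _ _ h)]
    · right
      rwa [abs_neg, abs_of_pos (hpos _ _ hb)]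
  · rintro (h | h)
    · exact Or.inl h
    · right
      rcases abs_choice y with e | e
      · left
        rwa [e] at h
      · right
        rw [e] at h
        exact ⟨-y, h, neg_neg y⟩

private theorem comp_evenW {V : Finset ℤ} {f : ℤ → ℕ} (h : ∀ x ∈ V, f x = 2 ∨ f x = 4 ∨ f x = 6) :
    Even (∑ x ∈ V, f x) := by
  apply Finset.even_sum
  intro x hx
  rcases h x hx with e | e | e
  · exact ⟨1, e⟩
  · exact ⟨2, e⟩
  · exact ⟨3, e⟩

theorem lg_of_core {M : ℕ} {g : ℤ} {ρ D E W : ℕ} (h : Core (Icc 1 (M : ℤ)) g ρ D E W)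
    (hD : D ≤ 2 * ρ) (hρ : 2 ≤ ρ) (hpar : 4 ∣ 2 * ρ * M + W)
    (hc : (ρ - 1 + 4) * 7 < (M - (ρ - 1) - 4) * (ρ - 1 - 2) ∨ 2 * (ρ - 1) + 8 + E < M) :
    LG (I M) (2 * ρ) 1 := by
  classical
  obtain ⟨N, hN⟩ := h
  have hcV : (Icc 1 (M : ℤ)).card = M := by
    rw [Int.card_Icc]
    omega
  have hsym : ∀ a b, (b ∈ N a ∨ -b ∈ N a) → (a ∈ N b ∨ -a ∈ N b) := by
    rintro a b (h1 | h1)
    · exact Or.inl (hN.gr.symm _ _ h1)
    · right
      have h2 := hN.odd _ _ h1
      rw [neg_neg] at h2
      exact hN.gr.symm _ _ h2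
  have hcard : ∀ x ∈ Icc 1 (M : ℤ), (N x).card = 2 ∨ (N x).card = 4 ∨ (N x).card = 6 := hN.deg
  have hle : ∀ x ∈ Icc 1 (M : ℤ), (N x).card ≤ 2 * ρ := fun x hx => (hN.degD x hx).trans hD
  have hnrg : ∃ H : ℤ → Finset ℤ, (∀ a b, b ∈ H a → a ∈ H b) ∧ (∀ a, a ∉ H a) ∧
      (∀ a b, b ∈ H a → a ∈ Icc 1 (M : ℤ) ∧ b ∈ Icc 1 (M : ℤ) ∧ ¬ (b ∈ N a ∨ -b ∈ N a)) ∧
      ∀ a ∈ Icc 1 (M : ℤ), (H a).card = (2 * ρ - (N a).card) / 2 := by
    refine nrg (V := Icc 1 (M : ℤ)) (fun a b => b ∈ N a ∨ -b ∈ N a) hsym
      4 (ρ - 1) E (fun a ha => ?_) (fun a => (2 * ρ - (N a).card) / 2) (fun a ha => ?_)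
      (fun a ha => ?_) ?_ ?_ ?_
    · refine le_trans ?_ (hN.kdeg a ha)
      refine card_le_card_of_injOn (fun b => if b ∈ N a then b else -b) ?_ ?_
      · intro b hb
        rw [mem_coe, mem_filter] at hb
        obtain ⟨hbV, hba, hbK⟩ := hb
        rw [mem_Icc] at hbV ha
        rw [mem_coe, mem_filter]
        dsimp only
        by_cases h1 : b ∈ N a
        · rw [if_pos h1]
          exact ⟨h1, by omega, by omega⟩
        · rw [if_neg h1]
          exact ⟨hbK.resolve_left h1, by omega, by omega⟩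
      · intro b hb c hc' hbc
        rw [mem_coe, mem_filter, mem_Icc] at hb hc'
        dsimp only at hbc
        split_ifs at hbc <;> omega
    · have := hcard a ha
      omega
    · have := hcard a ha
      have := hle a ha
      omega
    · refine le_trans (card_le_card ?_) hN.few
      intro x hx
      rw [mem_filter] at hx ⊢
      refine ⟨hx.1, fun e => hx.2 ?_⟩
      rw [e]
      omega
    · have h1 : ∑ a ∈ Icc 1 (M : ℤ), (2 * ((2 * ρ - (N a).card) / 2) + (N a).card) = 2 * ρ * M := by
        rw [sum_congr rfl (g := fun _ => 2 * ρ), sum_const, hcV, smul_eq_mul, mul_comm]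
        intro x hx
        have h3 := hle x hx
        rcases hcard x hx with e | e | e <;> omega
      rw [sum_add_distrib, ← mul_sum, hN.tot] at h1
      have h2 : Even W := by
        rw [← hN.tot]
        exact comp_evenW hcard
      obtain ⟨w, hw⟩ := h2
      rw [← h1] at hpar
      rw [Nat.even_iff]
      omega
    · rw [hcV]
      rcases hc with hc | hc
      · left
        exact hc
      · right
        omega
  obtain ⟨H, hHs, hHi, hHm, hHc⟩ := hnrg
  have hpos : ∀ a b, b ∈ H a → 0 < b := fun a b hb => by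
    have := (hHm a b hb).2.1
    rw [mem_Icc] at this
    omega
  have hdj : ∀ x y, y ∈ N x → |y| ∉ H |x| := by
    intro x y hy hH
    apply (hHm _ _ hH).2.2
    show |y| ∈ N |x| ∨ -|y| ∈ N |x|
    rcases abs_choice x with e | e
    · rw [e]
      rcases abs_choice y with e' | e'
      · left
        rwa [e']
      · right
        rwa [e', neg_neg]
    · rw [e]
      have h2 := hN.odd _ _ hy
      rcases abs_choice y with e' | e'
      · right
        rwa [e']
      · left
        rwa [e']
  have hdj1 : ∀ x, Disjoint (N x) (H |x| ∪ (H |x|).image fun y => -y) := by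
    intro x
    rw [Finset.disjoint_left]
    intro y hy h2
    have h3 : y ∈ compN (fun _ => ∅) H x := by
      unfold compN
      exact mem_union_right _ h2
    rw [comp_mem hpos] at h3
    rcases h3 with h3 | h3
    · simp at h3
    · exact hdj x y hy h3
  have hdj2 : ∀ x, Disjoint (H x) ((H x).image fun y => -y) := by
    intro x
    rw [Finset.disjoint_left]
    intro y hy h2
    rw [mem_image] at h2
    obtain ⟨b, hb, rfl⟩ := h2
    have h3 := hpos _ _ hy
    have h4 := hpos _ _ hb
    omega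
  have hcN : ∀ x, (compN N H x).card = (N x).card + 2 * (H |x|).card := by
    intro x
    unfold compN
    rw [card_union_of_disjoint (hdj1 x), card_union_of_disjoint (hdj2 _),
      card_image_of_injective _ neg_injective]
    omega
  have hsN : ∀ x, ∑ y ∈ compN N H x, y = ∑ y ∈ N x, y := by
    intro x
    unfold compN
    rw [sum_union (hdj1 x), sum_union (hdj2 _), sum_image (fun a _ b _ hab => neg_injective hab),
      sum_neg_distrib, add_neg_cancel, add_zero]
  have hemp : ∀ a, a ∉ Icc 1 (M : ℤ) → H a = ∅ := by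
    intro a ha
    rw [Finset.eq_empty_iff_forall_notMem]
    intro b hb
    exact ha (hHm a b hb).1
  refine ⟨compN N H, ⟨⟨?_, ?_⟩, ?_, ?_, ?_⟩⟩
  · intro x y hy
    rw [comp_mem hpos] at hy ⊢
    rcases hy with hy | hy
    · exact Or.inl (hN.gr.symm _ _ hy)
    · exact Or.inr (hHs _ _ hy)
  · intro x hx
    rw [comp_mem hpos] at hx
    rcases hx with hx | hx
    · exact hN.gr.irr x hx
    · exact hHi _ hx
  · intro x hx
    rw [mem_I, not_and_or] at hx
    have h1 : |x| ∉ Icc 1 (M : ℤ) := by
      rw [mem_Icc]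
      rintro ⟨_, h2⟩
      rw [abs_le] at h2
      omega
    have h0 : x ≠ 0 := by
      rintro rfl
      omega
    unfold compN
    rw [hN.supp x h0 h1, hemp _ h1]
    simp
  · intro x hx
    rw [hcN]
    by_cases h0 : x = 0
    · subst h0
      rw [abs_zero, hemp 0 (by simp), hN.zero]
      simp
    · have h1 : |x| ∈ Icc 1 (M : ℤ) := by
        rw [mem_I] at hx
        rw [mem_Icc]
        exact ⟨Int.one_le_abs h0, abs_le.2 hx⟩
      rw [hHc _ h1]
      have h2 : (N |x|).card = (N x).card := by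
        rcases abs_choice x with e | e
        · rw [e]
        · rw [e, hN.card_neg]
      have h3 := hle _ h1
      have h4 := hcard _ h1
      rw [h2] at h3 h4 ⊢
      omega
  · intro x hx
    rw [hsN, one_mul]
    by_cases h0 : x = 0
    · subst h0
      exact hN.sum_zero
    · have h1 : |x| ∈ Icc 1 (M : ℤ) := by
        rw [mem_I] at hx
        rw [mem_Icc]
        exact ⟨Int.one_le_abs h0, abs_le.2 hx⟩
      rcases abs_choice x with e | e
      · rw [e] at h1
        exact hN.sum x h1
      · rw [e] at h1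
        have h2 := hN.sum _ h1
        rw [hN.sum_neg] at h2
        omega

end Pool.Agent.Helper68.OC
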