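import Pool.Agent.Helper74.Hc.ToH
import Pool.Agent.Helper74.Hc.Lang

/-! OC. Odd order, `d = 1`, all orders: definitions.

Label graphs on `[-M, M]` of slope `1` which are centrally symmetric: `y ∈ N x → -y ∈ N (-x)`.
A *class* is a positive integer `a`, standing for the two vertices `a` and `-a`.
A *core* on a finite set `X` of classes is a centrally symmetric graph on `X ∪ -X ∪ {0}` such that
the sum of the neighbours of `x` is `x`, and the same holds for the function `sg g` in place of the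
identity (so that all classes `≥ g` can be shifted by the same amount); the vertex `0` has degree `2 z`,
all other degrees are `2`, `4` or `6`. -/

namespace Pool.Agent.Helper68.OC

open Finset Pool.Agent.Helper74.Hc

/-- the sign of `x` if `|x| ≥ g`, and `0` otherwise (for `g ≥ 1`) -/
def sg (g x : ℤ) : ℤ := if g ≤ x then 1 else if x ≤ -g then -1 else 0

theorem sg_neg {g : ℤ} (hg : 1 ≤ g) (x : ℤ) : sg g (-x) = -sg g x := by
  unfold sg
  split_ifs <;> omega

theorem sg_zero {g : ℤ} (hg : 1 ≤ g) : sg g 0 = 0 := by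
  unfold sg
  split_ifs <;> omega

/-- `N` is a core on the set `X` of classes, with gap at `g`, `2 z` edges at the vertex `0`, degrees at
most `D`, at most `E` classes of degree `≠ 2`, and the sum `W` of the degrees of the classes. -/
structure IsCore (N : ℤ → Finset ℤ) (X : Finset ℤ) (g : ℤ) (z D E W : ℕ) : Prop where
  pos : ∀ x ∈ X, 0 < x
  gr : Gr N
  odd : ∀ x y, y ∈ N x → -y ∈ N (-x)
  supp : ∀ x, x ≠ 0 → |x| ∉ X → N x = ∅
  sum : ∀ x ∈ X, ∑ y ∈ N x, y = x
  gap : ∀ x ∈ X, ∑ y ∈ N x, sg g y = sg g x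
  zero : (N 0).card = 2 * z
  deg : ∀ x ∈ X, (N x).card = 2 ∨ (N x).card = 4 ∨ (N x).card = 6
  degD : ∀ x ∈ X, (N x).card ≤ D
  kdeg : ∀ x ∈ X, ((N x).filter fun y => y ≠ 0 ∧ y ≠ -x).card ≤ 4
  few : (X.filter fun x => (N x).card ≠ 2).card ≤ E
  tot : ∑ x ∈ X, (N x).card = W

/-- some core -/
def Core (X : Finset ℤ) (g : ℤ) (z D E W : ℕ) : Prop := ∃ N, IsCore N X g z D E W

/-- a good core on `{1, …, n}` with `2 z` edges at the vertex `0` -/
def GC (z : ℕ) (n : ℕ) : Prop := ∃ (g : ℤ) (E W : ℕ), 1 ≤ g ∧ g ≤ n + 1 ∧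
  Core (Icc 1 (n : ℤ)) g z (if z = 2 then 4 else 6) E W ∧ 4 ∣ 2 * z * n + W ∧ (36 ≤ n → E + 15 ≤ n)

variable {N : ℤ → Finset ℤ} {X : Finset ℤ} {g : ℤ} {z D E W : ℕ}

/-- a neighbour is `0` or belongs to a class of `X` -/
theorem IsCore.mem_right (h : IsCore N X g z D E W) {x y : ℤ} (hy : y ∈ N x) : y = 0 ∨ |y| ∈ X := by
  by_contra hc
  rw [not_or] at hc
  have h1 := h.supp y hc.1 hc.2
  have h2 := h.gr.symm x y hy
  rw [h1] at h2
  simp at h2

/-- a vertex with a neighbour is `0` or belongs to a class of `X` -/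
theorem IsCore.mem_left (h : IsCore N X g z D E W) {x y : ℤ} (hy : y ∈ N x) : x = 0 ∨ |x| ∈ X :=
  h.mem_right (h.gr.symm x y hy)

/-- the neighbourhood of `-x` -/
theorem IsCore.neg (h : IsCore N X g z D E W) (x : ℤ) : N (-x) = (N x).image fun y => -y := by
  ext y
  rw [mem_image]
  constructor
  · intro hy
    refine ⟨-y, ?_, by simp⟩
    have := h.odd _ _ hy
    simpa using this
  · rintro ⟨w, hw, rfl⟩
    exact h.odd _ _ hw

theorem IsCore.card_neg (h : IsCore N X g z D E W) (x : ℤ) : (N (-x)).card = (N x).card := by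
  rw [h.neg x, card_image_of_injective _ neg_injective]

theorem IsCore.sum_neg (h : IsCore N X g z D E W) (x : ℤ) : ∑ y ∈ N (-x), y = -∑ y ∈ N x, y := by
  rw [h.neg x, sum_image (fun a _ b _ hab => neg_injective hab), sum_neg_distrib]

theorem IsCore.sum_zero (h : IsCore N X g z D E W) : ∑ y ∈ N 0, y = 0 := by
  have := h.sum_neg 0
  rw [neg_zero] at this
  omega

theorem IsCore.mono {E' : ℕ} (h : IsCore N X g z D E W) (hE : E ≤ E') : IsCore N X g z D E' W :=
  { h with few := h.few.trans hE }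

end Pool.Agent.Helper68.OC
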