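import Pool.Agent.Helper68.OC.Defs
import Pool.Agent.Helper68.OC.Circ

/-! OC-Outer. Adding `4 j` outer classes, completely joined to the inner part.

PLAN. `N` the label graph on `I n` (degree `r`), `S = ±[n+1, n+4j]` (`SI (n+1) (n+4j)`), `H` from `circ j h` with
`h = r/2 + 4j - n - 2`, class `n + 1 + a` for `a < 4j`. New neighbourhoods:
 * `x ∈ I n`: `N x ∪ S`: degree `r + 8 j`, sum `x + 0`;
 * `x = n + 1 + a`, `a = 4 i + e`: `I n`, the signed quadruple of its block, and `±(n+1+b)`, `b ∈ H a`. The quadruple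
   with `u = n + 1 + 4 i`: `u ~ u+1, u+2, -(u+3)`; `u+1 ~ u, -(u+2), u+3`; `u+2 ~ u, -(u+1), u+3`;
   `u+3 ~ -u, u+1, u+2`: the sum of the three neighbours of `x` is `x`. Degree
   `2 n + 1 + 3 + 2 h = r + 8 j`, sum `0 + x + 0`;
 * the negatives. -/

namespace Pool.Agent.Helper68.OC

open Finset Pool.Agent.Helper74.Hc

/-- the number of the class of `x` -/
private def cl (n : ℕ) (x : ℤ) : ℕ := x.natAbs - (n + 1)

/-- neighbours inside a block -/
private def Rq (n : ℕ) (x y : ℤ) : Prop :=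
  cl n x / 4 = cl n y / 4 ∧ x.natAbs ≠ y.natAbs ∧ ((0 < x ↔ 0 < y) ↔ cl n x % 4 + cl n y % 4 ≠ 3)

private theorem mem_S {n j : ℕ} {x : ℤ} : x ∈ SI ((n : ℤ) + 1) ((n : ℤ) + 4 * j) ↔
    n + 1 ≤ x.natAbs ∧ x.natAbs ≤ n + 4 * j := by
  rw [mem_SI]
  omega

private theorem mem_J {n : ℕ} {x : ℤ} : x ∈ I (n : ℤ) ↔ x.natAbs ≤ n := by
  rw [mem_I]
  omega

private theorem sum_zero_of_neg {T : Finset ℤ} (h : ∀ y ∈ T, -y ∈ T) : ∑ y ∈ T, y = 0 := by
  have h1 : ∑ y ∈ T, y = ∑ y ∈ T, -y := by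
    refine Finset.sum_nbij' (fun y => -y) (fun y => -y) h h ?_ ?_ ?_
    · intro a _; ring
    · intro a _; ring
    · intro a _; ring
  rw [Finset.sum_neg_distrib] at h1
  omega

private theorem card_S {n j : ℕ} : (SI ((n : ℤ) + 1) ((n : ℤ) + 4 * j)).card = 8 * j := by
  unfold SI
  rw [Finset.card_union_of_disjoint, Int.card_Icc, Int.card_Icc]
  · omega
  · rw [Finset.disjoint_left]
    intro a ha hb
    rw [Finset.mem_Icc] at ha hb
    omega

private theorem card_J {n : ℕ} : (I (n : ℤ)).card = 2 * n + 1 := by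
  unfold I
  rw [Int.card_Icc]
  omega

open Classical in
private theorem quad_eq {n j : ℕ} {x : ℤ} (h1 : n + 1 ≤ x.natAbs) (h2 : x.natAbs ≤ n + 4 * j) :
    ((SI ((n : ℤ) + 1) ((n : ℤ) + 4 * j)).filter (Rq n x)).card = 3 ∧
      ∑ y ∈ (SI ((n : ℤ) + 1) ((n : ℤ) + 4 * j)).filter (Rq n x), y = x := by
  have key : ∀ a b c : ℤ, a ≠ b → a ≠ c → b ≠ c → a + b + c = x →
      (∀ y, y ∈ (SI ((n : ℤ) + 1) ((n : ℤ) + 4 * j)).filter (Rq n x) ↔ y = a ∨ y = b ∨ y = c) →
      ((SI ((n : ℤ) + 1) ((n : ℤ) + 4 * j)).filter (Rq n x)).card = 3 ∧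
        ∑ y ∈ (SI ((n : ℤ) + 1) ((n : ℤ) + 4 * j)).filter (Rq n x), y = x := by
    intro a b c hab hac hbc hs hy
    have he : (SI ((n : ℤ) + 1) ((n : ℤ) + 4 * j)).filter (Rq n x) = {a, b, c} := by
      ext y
      rw [hy y]
      simp
    rw [he]
    refine ⟨Finset.card_eq_three.2 ⟨a, b, c, hab, hac, hbc, rfl⟩, ?_⟩
    rw [Finset.sum_insert (by simp [hab, hac]), Finset.sum_insert (by simp [hbc]), Finset.sum_singleton]
    rw [← hs]
    ring
  have hm : ∀ y, y ∈ (SI ((n : ℤ) + 1) ((n : ℤ) + 4 * j)).filter (Rq n x) ↔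
      (n + 1 ≤ y.natAbs ∧ y.natAbs ≤ n + 4 * j) ∧ (x.natAbs - (n + 1)) / 4 = (y.natAbs - (n + 1)) / 4 ∧
        x.natAbs ≠ y.natAbs ∧ ((0 < x ↔ 0 < y) ↔ (x.natAbs - (n + 1)) % 4 + (y.natAbs - (n + 1)) % 4 ≠ 3) := by
    intro y
    rw [Finset.mem_filter, mem_S]
    rfl
  have hcase : (x.natAbs - (n + 1)) % 4 = 0 ∨ (x.natAbs - (n + 1)) % 4 = 1 ∨
      (x.natAbs - (n + 1)) % 4 = 2 ∨ (x.natAbs - (n + 1)) % 4 = 3 := by omega
  rcases lt_or_gt_of_ne (show x ≠ 0 by rintro rfl; simp at h1) with hx | hx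
  · rcases hcase with e | e | e | e
    · refine key (x - 1) (x - 2) (-(x - 3)) (by omega) (by omega) (by omega) (by ring) fun y => ?_
      rw [hm]
      omega
    · refine key (x + 1) (x - 2) (-(x - 1)) (by omega) (by omega) (by omega) (by ring) fun y => ?_
      rw [hm]
      omega
    · refine key (x + 2) (x - 1) (-(x + 1)) (by omega) (by omega) (by omega) (by ring) fun y => ?_
      rw [hm]
      omega
    · refine key (x + 2) (x + 1) (-(x + 3)) (by omega) (by omega) (by omega) (by ring) fun y => ?_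
      rw [hm]
      omega
  · rcases hcase with e | e | e | e
    · refine key (x + 1) (x + 2) (-(x + 3)) (by omega) (by omega) (by omega) (by ring) fun y => ?_
      rw [hm]
      omega
    · refine key (x - 1) (x + 2) (-(x + 1)) (by omega) (by omega) (by omega) (by ring) fun y => ?_
      rw [hm]
      omega
    · refine key (x - 2) (x + 1) (-(x - 1)) (by omega) (by omega) (by omega) (by ring) fun y => ?_
      rw [hm]
      omega
    · refine key (x - 2) (x - 1) (-(x - 3)) (by omega) (by omega) (by omega) (by ring) fun y => ?_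
      rw [hm]
      omega

open Classical in
private theorem circ_eq {n j h : ℕ} {H : ℕ → Finset ℕ} {a : ℕ}
    (hH : ∀ b ∈ H a, b < 4 * j) (hc : (H a).card = h) :
    ((SI ((n : ℤ) + 1) ((n : ℤ) + 4 * j)).filter (fun y => cl n y ∈ H a)).card = 2 * h ∧
      ∑ y ∈ (SI ((n : ℤ) + 1) ((n : ℤ) + 4 * j)).filter (fun y => cl n y ∈ H a), y = 0 := by
  constructor
  · have he : (SI ((n : ℤ) + 1) ((n : ℤ) + 4 * j)).filter (fun y => cl n y ∈ H a) =
        (H a).image (fun b : ℕ => ((n : ℤ) + 1 + (b : ℤ))) ∪ (H a).image (fun b : ℕ => -((n : ℤ) + 1 + (b : ℤ))) := by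
      ext y
      rw [Finset.mem_filter, mem_S, Finset.mem_union, Finset.mem_image, Finset.mem_image]
      constructor
      · rintro ⟨⟨h1, h2⟩, h3⟩
        unfold cl at h3
        rcases le_total 0 y with hy | hy
        · exact Or.inl ⟨_, h3, by omega⟩
        · exact Or.inr ⟨_, h3, by omega⟩
      · rintro (⟨b, hb, rfl⟩ | ⟨b, hb, rfl⟩)
        · have h1 := hH b hb
          refine ⟨by omega, ?_⟩
          have h2 : cl n ((n : ℤ) + 1 + (b : ℤ)) = b := by unfold cl; omega
          rwa [h2]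
        · have h1 := hH b hb
          refine ⟨by omega, ?_⟩
          have h2 : cl n (-((n : ℤ) + 1 + (b : ℤ))) = b := by unfold cl; omega
          rwa [h2]
    rw [he, Finset.card_union_of_disjoint, Finset.card_image_of_injective, Finset.card_image_of_injective, hc]
    · ring
    · intro b c hbc
      simp only at hbc
      omega
    · intro b c hbc
      simp only at hbc
      omega
    · rw [Finset.disjoint_left]
      intro y h1 h2
      rw [Finset.mem_image] at h1 h2
      obtain ⟨b, -, rfl⟩ := h1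
      obtain ⟨c, -, h2⟩ := h2
      omega
  · apply sum_zero_of_neg
    intro y hy
    rw [Finset.mem_filter, mem_S] at hy ⊢
    have h1 : cl n (-y) = cl n y := by unfold cl; rw [Int.natAbs_neg]
    rw [h1, Int.natAbs_neg]
    exact hy

open Classical in
theorem outer {n j r : ℕ} (h : LG (I n) r 1) (he : Even r) (hj : 1 ≤ j)
    (h1 : n + 2 ≤ r / 2 + 4 * j) (h2 : r / 2 + 2 ≤ n) : LG (I ((n + 4 * j : ℕ) : ℤ)) (r + 8 * j) 1 := by
  obtain ⟨N, hN⟩ := h
  obtain ⟨H, H1, H2, H3, H4⟩ := circ j (r / 2 + 4 * j - n - 2) hj (by omega)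
  set S := SI ((n : ℤ) + 1) ((n : ℤ) + 4 * j) with hS
  set F : ℤ → Finset ℤ := fun x => if x.natAbs ≤ n then N x ∪ S else if x.natAbs ≤ n + 4 * j then
    (I n ∪ S.filter (Rq n x)) ∪ S.filter (fun y => cl n y ∈ H (cl n x)) else ∅ with hF
  have F1 : ∀ x, x.natAbs ≤ n → F x = N x ∪ S := by
    intro x hx
    rw [hF]
    simp only [if_pos hx]
  have F2 : ∀ x, n + 1 ≤ x.natAbs → x.natAbs ≤ n + 4 * j → F x = (I n ∪ S.filter (Rq n x)) ∪
      S.filter (fun y => cl n y ∈ H (cl n x)) := by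
    intro x hx hx'
    rw [hF]
    simp only [if_neg (show ¬ x.natAbs ≤ n by omega), if_pos hx']
  have F3 : ∀ x, n + 4 * j < x.natAbs → F x = ∅ := by
    intro x hx
    rw [hF]
    simp only [if_neg (show ¬ x.natAbs ≤ n by omega), if_neg (show ¬ x.natAbs ≤ n + 4 * j by omega)]
  have hNI : ∀ x y, y ∈ N x → x.natAbs ≤ n ∧ y.natAbs ≤ n := by
    intro x y hy
    have := hN.sub hy
    exact ⟨mem_J.1 this.1, mem_J.1 this.2⟩
  have d1 : ∀ x, Disjoint (N x) S := by
    intro x
    rw [Finset.disjoint_left]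
    intro y hy hy'
    have h3 := (hNI x y hy).2
    have h4 := mem_S.1 hy'
    omega
  have d2 : ∀ x, Disjoint (I (n : ℤ)) (S.filter (Rq n x)) := by
    intro x
    rw [Finset.disjoint_left]
    intro y hy hy'
    have h3 := mem_J.1 hy
    have h4 := mem_S.1 (Finset.mem_filter.1 hy').1
    omega
  have d3 : ∀ x, Disjoint (I (n : ℤ) ∪ S.filter (Rq n x)) (S.filter (fun y => cl n y ∈ H (cl n x))) := by
    intro x
    rw [Finset.disjoint_left]
    intro y hy hy'
    have h3 := Finset.mem_filter.1 hy'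
    have h4 := mem_S.1 h3.1
    rcases Finset.mem_union.1 hy with h5 | h5
    · have h6 := mem_J.1 h5
      omega
    · have h6 := (Finset.mem_filter.1 h5).2.1
      exact (H3 _ _ h3.2).2.2 h6
  have hsS : ∑ y ∈ S, y = 0 := by
    apply sum_zero_of_neg
    intro y hy
    rw [hS, mem_S] at hy ⊢
    rwa [Int.natAbs_neg]
  have hsI : ∑ y ∈ I (n : ℤ), y = 0 := by
    apply sum_zero_of_neg
    intro y hy
    rw [mem_J] at hy ⊢
    rwa [Int.natAbs_neg]
  refine ⟨F, ⟨⟨?_, ?_⟩, ?_, ?_, ?_⟩⟩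
  · intro x y hy
    rcases Nat.lt_or_ge n x.natAbs with hx | hx
    · rcases Nat.lt_or_ge (n + 4 * j) x.natAbs with hx' | hx'
      · rw [F3 x hx'] at hy
        simp at hy
      · rw [F2 x hx hx'] at hy
        have hxS : x ∈ S := mem_S.2 ⟨hx, hx'⟩
        rcases Finset.mem_union.1 hy with hy1 | hy1
        · rcases Finset.mem_union.1 hy1 with hy2 | hy2
          · rw [F1 y (mem_J.1 hy2)]
            exact Finset.mem_union_right _ hxS
          · obtain ⟨h3, h4⟩ := Finset.mem_filter.1 hy2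
            obtain ⟨h5, h6⟩ := mem_S.1 h3
            rw [F2 y h5 h6]
            refine Finset.mem_union_left _ (Finset.mem_union_right _ (Finset.mem_filter.2 ⟨hxS, ?_⟩))
            obtain ⟨g1, g2, g3⟩ := h4
            refine ⟨g1.symm, fun e => g2 e.symm, ?_⟩
            rw [add_comm, ← g3]
            exact Iff.comm
        · obtain ⟨h3, h4⟩ := Finset.mem_filter.1 hy1
          obtain ⟨h5, h6⟩ := mem_S.1 h3
          rw [F2 y h5 h6]
          exact Finset.mem_union_right _ (Finset.mem_filter.2 ⟨hxS, H1 _ _ h4⟩)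
    · rw [F1 x hx] at hy
      rcases Finset.mem_union.1 hy with hy1 | hy1
      · rw [F1 y (hNI x y hy1).2]
        exact Finset.mem_union_left _ (hN.gr.symm x y hy1)
      · obtain ⟨h5, h6⟩ := mem_S.1 hy1
        rw [F2 y h5 h6]
        exact Finset.mem_union_left _ (Finset.mem_union_left _ (mem_J.2 hx))
  · intro x hy
    rcases Nat.lt_or_ge n x.natAbs with hx | hx
    · rcases Nat.lt_or_ge (n + 4 * j) x.natAbs with hx' | hx'
      · rw [F3 x hx'] at hy
        simp at hy
      · rw [F2 x hx hx'] at hy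
        rcases Finset.mem_union.1 hy with hy1 | hy1
        · rcases Finset.mem_union.1 hy1 with hy2 | hy2
          · have := mem_J.1 hy2
            omega
          · exact (Finset.mem_filter.1 hy2).2.2.1 rfl
        · exact H2 _ (Finset.mem_filter.1 hy1).2
    · rw [F1 x hx] at hy
      rcases Finset.mem_union.1 hy with hy1 | hy1
      · exact hN.gr.irr x hy1
      · have := mem_S.1 hy1
        omega
  · intro x hx
    apply F3
    by_contra hc
    apply hx
    rw [mem_J]
    omega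
  · intro x hx
    rw [mem_J] at hx
    rcases Nat.lt_or_ge n x.natAbs with hx' | hx'
    · have ha : cl n x < 4 * j := by unfold cl; omega
      rw [F2 x hx' hx, Finset.card_union_of_disjoint (d3 x), Finset.card_union_of_disjoint (d2 x),
        card_J, (quad_eq hx' hx).1, (circ_eq (fun b hb => (H3 _ _ hb).2.1) (H4 _ ha)).1]
      obtain ⟨t, rfl⟩ := he
      omega
    · rw [F1 x hx', Finset.card_union_of_disjoint (d1 x), card_S, hN.card x (mem_J.2 hx')]
  · intro x hx
    rw [mem_J] at hx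
    rcases Nat.lt_or_ge n x.natAbs with hx' | hx'
    · have ha : cl n x < 4 * j := by unfold cl; omega
      rw [F2 x hx' hx, Finset.sum_union (d3 x), Finset.sum_union (d2 x),
        hsI, (quad_eq hx' hx).2, (circ_eq (fun b hb => (H3 _ _ hb).2.1) (H4 _ ha)).2]
      ring
    · rw [F1 x hx', Finset.sum_union (d1 x), hsS, hN.sum x (mem_J.2 hx')]
      ring

end Pool.Agent.Helper68.OC
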