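import Pool.Agent.Helper68.OC.Defs

/-! OC-Quad. Inserting four consecutive classes at the gap.

`f x = x + 4 * sg g x` is injective, odd, and maps `I n` onto `I (n + 4)` without `±[g, g+3]`
(`1 ≤ g ≤ n + 1`). The new graph is the image of the old one under `f`, together with the signed
quadruple (weights `1, -1, -1, 1`):
   `g ~ 0, g+1, g+2, -(g+3)`;  `g+1 ~ 0, g, -(g+2), g+3`;  `g+2 ~ 0, g, -(g+1), g+3`;
   `g+3 ~ 0, -g, g+1, g+2`;  and the negatives. -/

namespace Pool.Agent.Helper68.OC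

open Finset Pool.Agent.Helper74.Hc

/-- the shift -/
private def qf (g x : ℤ) : ℤ := x + 4 * sg g x

/-- the inverse of the shift -/
private def qe (g y : ℤ) : ℤ := if g + 4 ≤ y then y - 4 else if y ≤ -(g + 4) then y + 4 else y

/-- the new vertices -/
private def nw (g y : ℤ) : Prop := (g ≤ y ∧ y ≤ g + 3) ∨ (-(g + 3) ≤ y ∧ y ≤ -g)

private instance (g y : ℤ) : Decidable (nw g y) := by unfold nw; infer_instance

/-- the new edges -/
private def qq (g x y : ℤ) : Prop := (x = 0 ∧ nw g y) ∨ (y = 0 ∧ nw g x) ∨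
  (nw g x ∧ nw g y ∧ (x - y = 2 * g + 3 ∨ y - x = 2 * g + 3 ∨
    (((1 ≤ x ∧ 1 ≤ y) ∨ (x ≤ -1 ∧ y ≤ -1)) ∧ x ≠ y ∧ x + y ≠ 2 * g + 3 ∧ x + y ≠ -(2 * g + 3))))

private instance (g x y : ℤ) : Decidable (qq g x y) := by unfold qq; infer_instance

private theorem qe_qf {g : ℤ} (_hg : 1 ≤ g) (x : ℤ) : qe g (qf g x) = x := by
  unfold qe qf sg
  split_ifs <;> omega

private theorem qf_qe {g : ℤ} (hg : 1 ≤ g) {y : ℤ} (hy : ¬ nw g y) : qf g (qe g y) = y := by
  unfold nw at hy
  unfold qe qf sg
  split_ifs <;> omega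

private theorem nw_qf {g : ℤ} (hg : 1 ≤ g) (x : ℤ) : ¬ nw g (qf g x) := by
  unfold nw qf sg
  split_ifs <;> omega

private theorem qf_neg {g : ℤ} (hg : 1 ≤ g) (x : ℤ) : qf g (-x) = -qf g x := by
  unfold qf
  rw [sg_neg hg]
  ring

private theorem qe_neg {g : ℤ} (hg : 1 ≤ g) (x : ℤ) : qe g (-x) = -qe g x := by
  unfold qe
  split_ifs <;> omega

private theorem nw_neg {g x : ℤ} : nw g (-x) ↔ nw g x := by
  unfold nw
  omega

private theorem sg_qf {g : ℤ} (hg : 1 ≤ g) (x : ℤ) : sg g (qf g x) = sg g x := by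
  unfold qf sg
  split_ifs <;> omega

private theorem qf_zero {g : ℤ} (hg : 1 ≤ g) : qf g 0 = 0 := by
  unfold qf
  rw [sg_zero hg]
  ring

private theorem qe_zero {g : ℤ} (hg : 1 ≤ g) : qe g 0 = 0 := by
  unfold qe
  split_ifs <;> omega

private theorem nw_zero {g : ℤ} (hg : 1 ≤ g) : ¬ nw g 0 := by
  unfold nw
  omega

private theorem qf_inj {g : ℤ} (hg : 1 ≤ g) : Function.Injective (qf g) := by
  intro a b hab
  rw [← qe_qf hg a, ← qe_qf hg b, hab]

private theorem qq_symm {g x y : ℤ} (h : qq g x y) : qq g y x := by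
  unfold qq at h ⊢
  rcases h with h | h | ⟨h1, h2, h3⟩
  · exact Or.inr (Or.inl h)
  · exact Or.inl h
  · refine Or.inr (Or.inr ⟨h2, h1, ?_⟩)
    rcases h3 with h3 | h3 | ⟨h3, h4, h5, h6⟩
    · exact Or.inr (Or.inl h3)
    · exact Or.inl h3
    · refine Or.inr (Or.inr ⟨?_, fun h => h4 h.symm, by omega, by omega⟩)
      rcases h3 with h3 | h3
      · exact Or.inl h3.symm
      · exact Or.inr h3.symm

private theorem qq_neg {g x y : ℤ} (h : qq g x y) : qq g (-x) (-y) := by
  unfold qq at h ⊢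
  rw [nw_neg, nw_neg]
  rcases h with h | h | ⟨h1, h2, h3⟩
  · exact Or.inl ⟨by omega, h.2⟩
  · exact Or.inr (Or.inl ⟨by omega, h.2⟩)
  · exact Or.inr (Or.inr ⟨h1, h2, by omega⟩)

private theorem qq_irr {g : ℤ} (hg : 1 ≤ g) (x : ℤ) : ¬ qq g x x := by
  unfold qq nw
  omega

private theorem qq_bound {g x y : ℤ} (hg : 1 ≤ g) (h : qq g x y) : -(g + 3) ≤ y ∧ y ≤ g + 3 := by
  unfold qq nw at h
  omega

private theorem qq_old {g x y : ℤ} (hx0 : x ≠ 0) (hx : ¬ nw g x) : ¬ qq g x y := by
  unfold qq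
  tauto

/-- the old edges -/
private noncomputable def N1 (N : ℤ → Finset ℤ) (g x : ℤ) : Finset ℤ :=
  if nw g x then ∅ else (N (qe g x)).image (qf g)

/-- the new edges -/
private noncomputable def N2 (g x : ℤ) : Finset ℤ := (Icc (-(g + 3)) (g + 3)).filter fun y => qq g x y

private theorem mem_N1 {N : ℤ → Finset ℤ} {g x y : ℤ} :
    y ∈ N1 N g x ↔ ¬ nw g x ∧ ∃ b ∈ N (qe g x), qf g b = y := by
  unfold N1
  split_ifs with h
  · simp [h]
  · simp [h]

private theorem mem_N2 {g x y : ℤ} (hg : 1 ≤ g) : y ∈ N2 g x ↔ qq g x y := by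
  unfold N2
  rw [mem_filter, mem_Icc]
  exact ⟨fun h => h.2, fun h => ⟨qq_bound hg h, h⟩⟩

private theorem N2_old {g x : ℤ} (hg : 1 ≤ g) (hx0 : x ≠ 0) (hx : ¬ nw g x) : N2 g x = ∅ := by
  rw [eq_empty_iff_forall_notMem]
  intro y hy
  rw [mem_N2 hg] at hy
  exact qq_old hx0 hx hy

private theorem N1_new {N : ℤ → Finset ℤ} {g x : ℤ} (hx : nw g x) : N1 N g x = ∅ := by
  unfold N1
  rw [if_pos hx]

private theorem N1_old {N : ℤ → Finset ℤ} {g x : ℤ} (hx : ¬ nw g x) :
    N1 N g x = (N (qe g x)).image (qf g) := by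
  unfold N1
  rw [if_neg hx]

private theorem N2_g {g : ℤ} (hg : 1 ≤ g) : N2 g g = {0, g + 1, g + 2, -(g + 3)} := by
  ext y
  rw [mem_N2 hg]
  simp only [mem_insert, mem_singleton]
  unfold qq nw
  omega

private theorem N2_g1 {g : ℤ} (hg : 1 ≤ g) : N2 g (g + 1) = {0, g, -(g + 2), g + 3} := by
  ext y
  rw [mem_N2 hg]
  simp only [mem_insert, mem_singleton]
  unfold qq nw
  omega

private theorem N2_g2 {g : ℤ} (hg : 1 ≤ g) : N2 g (g + 2) = {0, g, -(g + 1), g + 3} := by
  ext y
  rw [mem_N2 hg]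
  simp only [mem_insert, mem_singleton]
  unfold qq nw
  omega

private theorem N2_g3 {g : ℤ} (hg : 1 ≤ g) : N2 g (g + 3) = {0, -g, g + 1, g + 2} := by
  ext y
  rw [mem_N2 hg]
  simp only [mem_insert, mem_singleton]
  unfold qq nw
  omega

private theorem N2_zero {g : ℤ} (hg : 1 ≤ g) :
    N2 g 0 = {g, g + 1, g + 2, g + 3, -g, -(g + 1), -(g + 2), -(g + 3)} := by
  ext y
  rw [mem_N2 hg]
  simp only [mem_insert, mem_singleton]
  unfold qq nw
  omega

/-- a sum over four different elements -/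
private theorem sum_four {M : Type*} [AddCommMonoid M] (F : ℤ → M) {a b c d : ℤ}
    (h1 : a ≠ b) (h2 : a ≠ c) (h3 : a ≠ d) (h4 : b ≠ c) (h5 : b ≠ d) (h6 : c ≠ d) :
    ∑ y ∈ ({a, b, c, d} : Finset ℤ), F y = F a + (F b + (F c + F d)) := by
  rw [sum_insert (by simp [h1, h2, h3]), sum_insert (by simp [h4, h5]), sum_insert (by simp [h6]),
    sum_singleton]

private theorem new_cases {g x : ℤ} (hg : 1 ≤ g) (hx : nw g x) (h0 : 0 < x) :
    x = g ∨ x = g + 1 ∨ x = g + 2 ∨ x = g + 3 := by
  unfold nw at hx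
  omega

private theorem new_sum {g x : ℤ} (hg : 1 ≤ g) (hx : nw g x) (h0 : 0 < x) :
    ∑ y ∈ N2 g x, y = x := by
  rcases new_cases hg hx h0 with rfl | rfl | rfl | rfl
  · rw [N2_g hg, sum_four _ (by omega) (by omega) (by omega) (by omega) (by omega) (by omega)]
    ring
  · rw [N2_g1 hg, sum_four _ (by omega) (by omega) (by omega) (by omega) (by omega) (by omega)]
    ring
  · rw [N2_g2 hg, sum_four _ (by omega) (by omega) (by omega) (by omega) (by omega) (by omega)]
    ring
  · rw [N2_g3 hg, sum_four _ (by omega) (by omega) (by omega) (by omega) (by omega) (by omega)]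
    ring

private theorem new_card {g x : ℤ} (hg : 1 ≤ g) (hx : nw g x) (h0 : 0 < x) :
    (N2 g x).card = 4 := by
  rw [card_eq_sum_ones]
  rcases new_cases hg hx h0 with rfl | rfl | rfl | rfl
  · rw [N2_g hg, sum_four _ (by omega) (by omega) (by omega) (by omega) (by omega) (by omega)]; rfl
  · rw [N2_g1 hg, sum_four _ (by omega) (by omega) (by omega) (by omega) (by omega) (by omega)]; rfl
  · rw [N2_g2 hg, sum_four _ (by omega) (by omega) (by omega) (by omega) (by omega) (by omega)]; rfl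
  · rw [N2_g3 hg, sum_four _ (by omega) (by omega) (by omega) (by omega) (by omega) (by omega)]; rfl

private theorem new_gap {g x : ℤ} (hg : 1 ≤ g) (hx : nw g x) (h0 : 0 < x) :
    ∑ y ∈ N2 g x, sg g y = sg g x := by
  rcases new_cases hg hx h0 with rfl | rfl | rfl | rfl
  · rw [N2_g hg, sum_four _ (by omega) (by omega) (by omega) (by omega) (by omega) (by omega)]
    unfold sg
    split_ifs <;> omega
  · rw [N2_g1 hg, sum_four _ (by omega) (by omega) (by omega) (by omega) (by omega) (by omega)]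
    unfold sg
    split_ifs <;> omega
  · rw [N2_g2 hg, sum_four _ (by omega) (by omega) (by omega) (by omega) (by omega) (by omega)]
    unfold sg
    split_ifs <;> omega
  · rw [N2_g3 hg, sum_four _ (by omega) (by omega) (by omega) (by omega) (by omega) (by omega)]
    unfold sg
    split_ifs <;> omega

private theorem zero_card {g : ℤ} (hg : 1 ≤ g) : (N2 g 0).card = 8 := by
  rw [N2_zero hg]
  rw [card_insert_of_notMem, card_insert_of_notMem, card_insert_of_notMem, card_insert_of_notMem,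
    card_insert_of_notMem, card_insert_of_notMem, card_insert_of_notMem, card_singleton]
  all_goals
    simp only [mem_insert, mem_singleton]
    omega

theorem core_quad {n : ℤ} {g : ℤ} {z D E W : ℕ} (h : Core (Icc 1 n) g z D E W) (hg : 1 ≤ g)
    (hgn : g ≤ n + 1) (hD : 4 ≤ D) : Core (Icc 1 (n + 4)) g (z + 4) D (E + 4) (W + 16) := by
  obtain ⟨N, h⟩ := h
  have hold : ∀ x, x ∈ Icc 1 (n + 4) → ¬ nw g x →
      N1 N g x ∪ N2 g x = (N (qe g x)).image (qf g) ∧ qe g x ∈ Icc 1 n := by
    intro x hx hn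
    rw [mem_Icc] at hx
    rw [N1_old hn, N2_old hg (by omega) hn, union_empty]
    refine ⟨rfl, ?_⟩
    rw [mem_Icc]
    unfold nw at hn
    unfold qe
    split_ifs <;> omega
  have hnew : ∀ x, nw g x → N1 N g x ∪ N2 g x = N2 g x := by
    intro x hn
    rw [N1_new hn, empty_union]
  have hX : Icc 1 (n + 4) = (Icc 1 n).image (qf g) ∪ Icc g (g + 3) := by
    ext x
    rw [mem_union, mem_image, mem_Icc, mem_Icc]
    constructor
    · intro hx
      by_cases hn : nw g x
      · right
        unfold nw at hn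
        omega
      · left
        exact ⟨qe g x, (hold x (mem_Icc.mpr hx) hn).2, qf_qe hg hn⟩
    · rintro (⟨a, ha, rfl⟩ | hx)
      · rw [mem_Icc] at ha
        unfold qf sg
        split_ifs <;> omega
      · omega
  have hdisj : Disjoint ((Icc 1 n).image (qf g)) (Icc g (g + 3)) := by
    rw [disjoint_left]
    intro x hx hx'
    obtain ⟨a, _, rfl⟩ := mem_image.mp hx
    rw [mem_Icc] at hx'
    exact nw_qf hg a (Or.inl hx')
  have hcard : ∀ a ∈ Icc 1 n, (N1 N g (qf g a) ∪ N2 g (qf g a)).card = (N a).card := by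
    intro a ha
    have hm : qf g a ∈ Icc 1 (n + 4) := by
      rw [hX]
      exact mem_union_left _ (mem_image_of_mem _ ha)
    rw [(hold _ hm (nw_qf hg a)).1, qe_qf hg, card_image_of_injective _ (qf_inj hg)]
  have hcardn : ∀ x ∈ Icc g (g + 3), (N1 N g x ∪ N2 g x).card = 4 := by
    intro x hx
    rw [mem_Icc] at hx
    have hn : nw g x := Or.inl hx
    rw [hnew x hn, new_card hg hn (by omega)]
  refine ⟨fun x => N1 N g x ∪ N2 g x, ?_, ⟨?_, ?_⟩, ?_, ?_, ?_, ?_, ?_, ?_, ?_, ?_, ?_, ?_⟩
  · intro x hx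
    rw [mem_Icc] at hx
    omega
  · intro x y hy
    simp only [mem_union, mem_N1, mem_N2 hg] at hy ⊢
    rcases hy with ⟨hn, b, hb, rfl⟩ | hy
    · left
      refine ⟨nw_qf hg b, qe g x, ?_, qf_qe hg hn⟩
      rw [qe_qf hg]
      exact h.gr.symm _ _ hb
    · right
      exact qq_symm hy
  · intro x hx
    simp only [mem_union, mem_N1, mem_N2 hg] at hx
    rcases hx with ⟨hn, b, hb, hbx⟩ | hx
    · have : qe g x = b := by rw [← hbx, qe_qf hg]
      rw [this] at hb
      exact h.gr.irr _ hb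
    · exact qq_irr hg x hx
  · intro x y hy
    simp only [mem_union, mem_N1, mem_N2 hg] at hy ⊢
    rcases hy with ⟨hn, b, hb, rfl⟩ | hy
    · left
      refine ⟨fun hc => hn (nw_neg.mp hc), -b, ?_, qf_neg hg b⟩
      rw [qe_neg hg]
      exact h.odd _ _ hb
    · right
      exact qq_neg hy
  · intro x hx0 hx
    have hn : ¬ nw g x := by
      intro hn
      apply hx
      rw [mem_Icc]
      unfold nw at hn
      rcases abs_cases x with hh | hh <;> omega
    rw [N1_old hn, N2_old hg hx0 hn, union_empty]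
    have : N (qe g x) = ∅ := by
      apply h.supp
      · unfold qe
        split_ifs <;> omega
      · intro hc
        apply hx
        rw [mem_Icc] at hc ⊢
        unfold qe at hc
        split_ifs at hc <;> rcases abs_cases x with hh | hh <;>
          first
          | omega
          | (rcases abs_cases (x - 4) with hk | hk <;> omega)
          | (rcases abs_cases (x + 4) with hk | hk <;> omega)
    rw [this, image_empty]
  · intro x hx
    by_cases hn : nw g x
    · rw [hnew x hn]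
      exact new_sum hg hn (by rw [mem_Icc] at hx; omega)
    · obtain ⟨h1, h2⟩ := hold x hx hn
      rw [h1, sum_image (fun a _ b _ hab => qf_inj hg hab)]
      unfold qf
      rw [sum_add_distrib, ← mul_sum, h.sum _ h2, h.gap _ h2]
      exact qf_qe hg hn
  · intro x hx
    by_cases hn : nw g x
    · rw [hnew x hn]
      exact new_gap hg hn (by rw [mem_Icc] at hx; omega)
    · obtain ⟨h1, h2⟩ := hold x hx hn
      rw [h1, sum_image (fun a _ b _ hab => qf_inj hg hab)]
      simp only [sg_qf hg]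
      rw [h.gap _ h2, ← sg_qf hg, qf_qe hg hn]
  · rw [card_union_of_disjoint, zero_card hg, N1_old (nw_zero hg), qe_zero hg,
      card_image_of_injective _ (qf_inj hg), h.zero]
    · ring
    · rw [disjoint_left]
      intro y hy hy'
      rw [mem_N1] at hy
      rw [mem_N2 hg] at hy'
      obtain ⟨_, b, _, rfl⟩ := hy
      unfold qq at hy'
      have h1 := nw_qf hg b
      have h2 := nw_zero hg
      tauto
  · intro x hx
    by_cases hn : nw g x
    · rw [hnew x hn, new_card hg hn (by rw [mem_Icc] at hx; omega)]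
      omega
    · obtain ⟨h1, h2⟩ := hold x hx hn
      rw [h1, card_image_of_injective _ (qf_inj hg)]
      exact h.deg _ h2
  · intro x hx
    by_cases hn : nw g x
    · rw [hnew x hn, new_card hg hn (by rw [mem_Icc] at hx; omega)]
      omega
    · obtain ⟨h1, h2⟩ := hold x hx hn
      rw [h1, card_image_of_injective _ (qf_inj hg)]
      exact h.degD _ h2
  · intro x hx
    by_cases hn : nw g x
    · rw [hnew x hn]
      refine (card_filter_le _ _).trans ?_
      rw [new_card hg hn (by rw [mem_Icc] at hx; omega)]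
    · obtain ⟨h1, h2⟩ := hold x hx hn
      rw [h1, filter_image, card_image_of_injective _ (qf_inj hg)]
      refine le_trans (card_le_card ?_) (h.kdeg _ h2)
      intro y hy
      rw [mem_filter] at hy ⊢
      refine ⟨hy.1, ?_, ?_⟩
      · rintro rfl
        exact hy.2.1 (qf_zero hg)
      · intro hc
        apply hy.2.2
        rw [hc, qf_neg hg, qf_qe hg hn]
  · rw [hX, filter_union]
    refine (card_union_le _ _).trans ?_
    refine add_le_add ?_ ?_
    · rw [filter_image, card_image_of_injective _ (qf_inj hg)]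
      refine le_trans (card_le_card ?_) h.few
      intro a ha
      rw [mem_filter] at ha ⊢
      rw [hcard a ha.1] at ha
      exact ha
    · refine (card_filter_le _ _).trans ?_
      rw [Int.card_Icc]
      omega
  · rw [hX, sum_union hdisj, sum_image (fun a _ b _ hab => qf_inj hg hab), sum_congr rfl hcard,
      sum_congr rfl hcardn, h.tot, sum_const, Int.card_Icc]
    have : (g + 3 + 1 - g).toNat = 4 := by omega
    rw [this]
    rfl

theorem core_quads {n : ℤ} {g : ℤ} {z D E W : ℕ} (h : Core (Icc 1 n) g z D E W) (hg : 1 ≤ g)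
    (hgn : g ≤ n + 1) (hD : 4 ≤ D) (Q : ℕ) :
    Core (Icc 1 (n + 4 * Q)) g (z + 4 * Q) D (E + 4 * Q) (W + 16 * Q) := by
  induction Q with
  | zero => simpa using h
  | succ Q ih =>
    have h1 := core_quad ih hg (by omega) hD
    have e1 : n + 4 * (Q : ℤ) + 4 = n + 4 * ((Q + 1 : ℕ) : ℤ) := by push_cast; ring
    have e2 : z + 4 * Q + 4 = z + 4 * (Q + 1) := by ring
    have e3 : E + 4 * Q + 4 = E + 4 * (Q + 1) := by ring
    have e4 : W + 16 * Q + 16 = W + 16 * (Q + 1) := by ring
    rw [e1, e2, e3, e4] at h1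
    exact h1

end Pool.Agent.Helper68.OC
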