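import Pool.Agent.Helper68.OC.SmallA
import Pool.Agent.Helper68.OC.SmallB
import Pool.Agent.Helper68.OC.SmallC
import Pool.Agent.Helper68.OC.SmallD
import Pool.Agent.Helper68.OC.SmallE

/-! OC-Small. All small orders. -/

namespace Pool.Agent.Helper68.OC

open Finset Pool.Agent.Helper74.Hc

theorem small (M ρ : ℕ) (h1 : 4 ≤ M) (h2 : M ≤ 39) (h3 : 2 ≤ ρ) (h4 : ρ ≤ M - 2)
    (h5 : M ≤ 21 ∨ ρ ≤ (M + 6) / 2)
    (h6 : ¬ ((M = 5 ∧ ρ = 2) ∨ (M = 5 ∧ ρ = 3) ∨ (M = 6 ∧ ρ = 2) ∨ (M = 6 ∧ ρ = 4) ∨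
      (M = 7 ∧ ρ = 2) ∨ (M = 8 ∧ ρ = 2))) : LG (I M) (2 * ρ) 1 := by
  rcases Nat.lt_or_ge M 22 with hM | hM
  · have h7 : ρ < M - 1 := by omega
    clear h5 h2 h4
    interval_cases M
    · exact sm4_lg ρ h3 (by omega)
    · exfalso; omega
    · exact sm6_lg ρ h3 (by omega) (by omega) (by omega)
    · exact sm7_lg ρ h3 (by omega) (by omega)
    · exact sm8_lg ρ h3 (by omega) (by omega)
    · exact sm9_lg ρ h3 (by omega)
    · exact sm10_lg ρ h3 (by omega)
    · exact sm11_lg ρ h3 (by omega)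
    · exact sm12_lg ρ h3 (by omega)
    · exact sm13_lg ρ h3 (by omega)
    · exact sm14_lg ρ h3 (by omega)
    · exact sm15_lg ρ h3 (by omega)
    · exact sm16_lg ρ h3 (by omega)
    · exact sm17_lg ρ h3 (by omega)
    · exact sm18_lg ρ h3 (by omega)
    · exact sm19_lg ρ h3 (by omega)
    · exact sm20_lg ρ h3 (by omega)
    · exact sm21_lg ρ h3 (by omega)
  · have h7 : ρ ≤ (M + 6) / 2 := by omega
    clear h5 h4 h6 h1
    interval_cases M
    · exact sm22_lg ρ h3 (by omega)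
    · exact sm23_lg ρ h3 (by omega)
    · exact sm24_lg ρ h3 (by omega)
    · exact sm25_lg ρ h3 (by omega)
    · exact sm26_lg ρ h3 (by omega)
    · exact sm27_lg ρ h3 (by omega)
    · exact sm28_lg ρ h3 (by omega)
    · exact sm29_lg ρ h3 (by omega)
    · exact sm30_lg ρ h3 (by omega)
    · exact sm31_lg ρ h3 (by omega)
    · exact sm32_lg ρ h3 (by omega)
    · exact sm33_lg ρ h3 (by omega)
    · exact sm34_lg ρ h3 (by omega)
    · exact sm35_lg ρ h3 (by omega)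
    · exact sm36_lg ρ h3 (by omega)
    · exact sm37_lg ρ h3 (by omega)
    · exact sm38_lg ρ h3 (by omega)
    · exact sm39_lg ρ h3 (by omega)

end Pool.Agent.Helper68.OC
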