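import Pool.Agent.Helper68.OC.Step
import Pool.Agent.Helper68.OC.Quad
import Pool.Agent.Helper68.OC.Comp
import Pool.Agent.Helper68.OC.Outer
import Pool.Agent.Helper68.OC.Small
import Pool.Agent.Helper68.OC.Base
import Pool.Agent.Helper74.Hc.Two
import Pool.Agent.NE1.Final

/-! OC-Main. The complete classification for `d = 1` and `p` odd. -/

namespace Pool.Agent.Helper68.OC

open Finset Pool.Agent.Helper74.Hc Pool.Agent.Helper48

/-- the degrees up to `M + 6` -/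
theorem low_range {M ρ : ℕ} (hM : 40 ≤ M) (h2 : 2 ≤ ρ) (h3 : 2 * ρ ≤ M + 6) :
    LG (I M) (2 * ρ) 1 := by
  obtain ⟨z, Q, hz, hρ⟩ : ∃ z Q : ℕ, (z = 2 ∨ z = 3 ∨ z = 4 ∨ z = 5) ∧ ρ = z + 4 * Q :=
    ⟨2 + (ρ - 2) % 4, (ρ - 2) / 4, by omega, by omega⟩
  obtain ⟨g, E, W, g1, g2, hcore, hpar, hfew⟩ :=
    gc_all (z := z) (fun n h1 h2 => base hz n h1 h2) (M - 4 * Q) (by omega)
  have hD : (if z = 2 then 4 else 6 : ℕ) ≤ 2 * ρ := by
    split_ifs with h
    · omega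
    · omega
  have hD4 : 4 ≤ (if z = 2 then 4 else 6 : ℕ) := by
    split_ifs <;> omega
  have hc := core_quads hcore g1 g2 hD4 Q
  have e1 : (((M - 4 * Q : ℕ) : ℤ) + 4 * (Q : ℤ)) = (M : ℤ) := by
    have : 4 * Q ≤ M := by omega
    push_cast [Nat.cast_sub this]
    ring
  rw [e1, ← hρ] at hc
  refine lg_of_core hc hD h2 ?_ ?_
  · obtain ⟨n, hn⟩ : ∃ n, M = n + 4 * Q := ⟨M - 4 * Q, by omega⟩
    have e2 : M - 4 * Q = n := by omega
    rw [e2] at hpar
    obtain ⟨c, hc⟩ := hpar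
    refine ⟨c + 2 * z * Q + 2 * Q * n + 8 * Q * Q + 4 * Q, ?_⟩
    rw [hρ, hn]
    nlinarith [hc]
  · by_cases h5 : 5 ≤ ρ
    · left
      have hM2 : 2 * ρ ≤ M + 6 := h3
      obtain ⟨k, hk⟩ : ∃ k, ρ = k + 5 := ⟨ρ - 5, by omega⟩
      subst hk
      obtain ⟨l, hl⟩ : ∃ l, M = k + 8 + l := ⟨M - k - 8, by omega⟩
      subst hl
      have e3 : k + 8 + l - (k + 5 - 1) - 4 = l := by omega
      have e4 : k + 5 - 1 - 2 = k + 2 := by omega
      have e5 : k + 5 - 1 + 4 = k + 8 := by omega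
      rw [e3, e4, e5]
      have f1 : 32 ≤ k + l := by omega
      have f2 : k ≤ l + 4 := by omega
      by_cases hk : k ≤ 18
      · have f3 : 32 - k ≤ l := by omega
        have f4 : (32 - k) * (k + 2) ≤ l * (k + 2) := Nat.mul_le_mul_right _ f3
        refine lt_of_lt_of_le ?_ f4
        interval_cases k <;> norm_num
      · have f3 : k - 4 ≤ l := by omega
        have f4 : (k - 4) * (k + 2) ≤ l * (k + 2) := Nat.mul_le_mul_right _ f3
        refine lt_of_lt_of_le ?_ f4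
        obtain ⟨a, ha⟩ : ∃ a, k = a + 19 := ⟨k - 19, by omega⟩
        subst ha
        have : a + 19 - 4 = a + 15 := by omega
        rw [this]
        nlinarith
    · right
      have hQ : Q = 0 := by omega
      subst hQ
      have := hfew (by omega)
      omega

/-- the exceptional pairs `(M, ρ)` -/
def Exc (M ρ : ℕ) : Prop := (M = 5 ∧ ρ = 2) ∨ (M = 5 ∧ ρ = 3) ∨ (M = 6 ∧ ρ = 2) ∨ (M = 6 ∧ ρ = 4) ∨
  (M = 7 ∧ ρ = 2) ∨ (M = 8 ∧ ρ = 2)

theorem exists_all : ∀ M ρ : ℕ, 2 ≤ ρ → ρ + 2 ≤ M → ¬ Exc M ρ → LG (I M) (2 * ρ) 1 := by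
  intro M
  induction M using Nat.strong_induction_on with
  | _ M ih =>
    intro ρ h2 h3 hex
    by_cases hA : M ≤ 39 ∧ (M ≤ 21 ∨ ρ ≤ (M + 6) / 2)
    · exact small M ρ (by omega) hA.1 h2 (by omega) hA.2 hex
    by_cases hB : 40 ≤ M ∧ 2 * ρ ≤ M + 6
    · exact low_range hB.1 h2 hB.2
    have h22 : 22 ≤ M := by omega
    have h7 : M + 7 ≤ 2 * ρ := by omega
    obtain ⟨j, hj1, hj2⟩ : ∃ j, M + 2 ≤ ρ + 4 * j ∧ ρ + 4 * j ≤ M + 5 :=
      ⟨(M + 5 - ρ) / 4, by omega, by omega⟩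
    have hj0 : 1 ≤ j := by omega
    have h4 := ih (M - 4 * j) (by omega) (ρ - 4 * j) (by omega) (by omega)
      (by unfold Exc; omega)
    have h5 := outer (n := M - 4 * j) (j := j) (r := 2 * (ρ - 4 * j)) h4 (even_two_mul _) hj0
      (by omega) (by omega)
    have e1 : M - 4 * j + 4 * j = M := by omega
    have e2 : 2 * (ρ - 4 * j) + 8 * j = 2 * ρ := by omega
    rw [e1, e2] at h5
    exact h5

/-- The classification for `d = 1` and odd order. -/
theorem odd_one {p r : ℕ} (hp : Odd p) (hr : 1 ≤ r) : ExistsH p r 1 ↔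
    (Even r ∧ 4 ≤ r ∧ r + 5 ≤ p ∧ ¬ (p = 11 ∧ r = 4) ∧ ¬ (p = 11 ∧ r = 6) ∧ ¬ (p = 13 ∧ r = 4) ∧
      ¬ (p = 13 ∧ r = 8) ∧ ¬ (p = 15 ∧ r = 4) ∧ ¬ (p = 17 ∧ r = 4)) := by
  have hp' := Nat.odd_iff.1 hp
  constructor
  · intro h
    by_cases h1 : p = 1
    · subst h1
      obtain ⟨G, l, h2, _⟩ := h
      classical
      have h3 := h2 0
      have h4 : ∀ (i : DecidablePred fun x : Fin 1 => G.Adj 0 x),
          (@filter (Fin 1) (fun x => G.Adj 0 x) i univ).card = 0 := by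
        intro i
        rw [card_eq_zero]
        apply filter_eq_empty_iff.2
        intro x _ hx
        rw [Subsingleton.elim x 0] at hx
        exact G.irrefl hx
      rw [h4] at h3
      omega
    · have e1 := nec_odd h hp'
      have e2 := nec_low h le_rfl (by omega)
      have e3 := nec_high h le_rfl (by omega)
      have e4 : r ≠ 2 := by
        rintro rfl
        exact no_two h hp
      have e5 := Pool.Agent.NE1.no_exceptional h
      exact ⟨Nat.even_iff.2 e1, by omega, by omega, e5⟩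
  · rintro ⟨he, h4, h5, hex⟩
    obtain ⟨M, hM⟩ := hp
    obtain ⟨ρ, hρ⟩ := he
    have hρ' : r = 2 * ρ := by omega
    subst hρ'
    subst hM
    have := exists_all M ρ (by omega) (by omega) (by unfold Exc; omega)
    exact existsH_of_lg this

end Pool.Agent.Helper68.OC
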