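import Pool.Agent.Helper68.OC.Defs

/-! OC-SChk. Kernel-checkable certificates for small orders (centrally symmetric graphs as bit tables).

A certificate for `(M, ρ)` is `(p, q, z)`: the classes are `1, …, M`; for `a < b < M` (indices, class = index + 1)
the bit number `b (b+1) / 2 + a` of `p` says that the classes `a+1`, `b+1` are joined by the edges `(+,+)`,
`(-,-)`; for `a ≤ b` the same bit of `q` says that they are joined by `(+,-)`, `(-,+)` (for `a = b`: the edge
`x — -x`); bit `a` of `z` says that `±(a+1)` are joined to `0`. Symmetric by construction.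
The check uses the recursors and raw functions on numbers (about `0.05` s for `M = 39` in the kernel). -/

namespace Pool.Agent.Helper68.OC

open Finset Pool.Agent.Helper74.Hc

/-- index of the pair `{a, b}` -/
noncomputable def tri (a b : ℕ) : ℕ :=
  Bool.rec (motive := fun _ => ℕ) (Nat.add (Nat.div (Nat.mul a (Nat.add a (nat_lit 1))) (nat_lit 2)) b)
    (Nat.add (Nat.div (Nat.mul b (Nat.add b (nat_lit 1))) (nat_lit 2)) a) (Nat.ble a b)

/-- bit of a table -/
noncomputable def tb (c a b : ℕ) : ℕ := Nat.land (Nat.shiftRight c (tri a b)) (nat_lit 1)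

/-- sum over `i < n` -/
noncomputable def rs (n : ℕ) (f : ℕ → ℕ) : ℕ :=
  Nat.rec (motive := fun _ => ℕ) (nat_lit 0) (fun i s => Nat.add (f i) s) n

/-- all `i < n` -/
noncomputable def sra (n : ℕ) (f : ℕ → Bool) : Bool :=
  Nat.rec (motive := fun _ => Bool) true (fun i s => Bool.rec (motive := fun _ => Bool) false s (f i)) n

/-- force the evaluation of a number -/
noncomputable def sfz {α : Type} (n : ℕ) (f : ℕ → α) : α :=
  Nat.rec (motive := fun _ => α) (f (nat_lit 0)) (fun m _ => f (Nat.add m (nat_lit 1))) n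

/-- degree and sum of a row of a table, as a number in base `4096` -/
noncomputable def srow (M c a : ℕ) : ℕ :=
  rs M fun b => Nat.mul (tb c a b) (Nat.add (Nat.mul (nat_lit 4096) b) (nat_lit 4097))

/-- the check -/
noncomputable def schk (M ρ p q z : ℕ) : Bool :=
  Nat.ble M 4000 && ((rs M (fun a => z / 2 ^ a % 2) == ρ) &&
  sra M fun a =>
    sfz (Nat.sub (srow M p a) (Nat.mul (tb p a a) (Nat.add (Nat.mul (nat_lit 4096) a) (nat_lit 4097)))) fun s =>
    sfz (srow M q a) fun t =>
    (z / 2 ^ a % 2 + s % 4096 + t % 4096 == 2 * ρ) && (s / 4096 == a + 1 + t / 4096))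

private theorem sc_tri_comm (a b : ℕ) : tri a b = tri b a := by
  unfold tri
  rcases lt_trichotomy a b with h | h | h
  · have h1 : Nat.ble a b = true := by rw [Nat.ble_eq]; exact h.le
    have h2 : Nat.ble b a = false := by
      rw [← Bool.not_eq_true, Nat.ble_eq]
      omega
    rw [h1, h2]
  · rw [h]
  · have h1 : Nat.ble b a = true := by rw [Nat.ble_eq]; exact h.le
    have h2 : Nat.ble a b = false := by
      rw [← Bool.not_eq_true, Nat.ble_eq]
      omega
    rw [h1, h2]

private theorem sc_tb_comm (c a b : ℕ) : tb c a b = tb c b a := by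
  unfold tb
  rw [sc_tri_comm]

private theorem sc_tb (c a b : ℕ) : tb c a b = 0 ∨ tb c a b = 1 := by
  have h : tb c a b = Nat.shiftRight c (tri a b) % 2 := Nat.and_one_is_mod _
  omega

private theorem sc_rs (n : ℕ) (f : ℕ → ℕ) : rs n f = ∑ i ∈ range n, f i := by
  induction n with
  | zero => rfl
  | succ n ih =>
    rw [sum_range_succ, ← ih]
    exact Nat.add_comm (f n) (rs n f)

private theorem sc_sra {n : ℕ} {f : ℕ → Bool} (h : sra n f = true) : ∀ i < n, f i = true := by
  induction n with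
  | zero =>
    intro i hi
    exact absurd hi (Nat.not_lt_zero i)
  | succ n ih =>
    have h1 : sra (n + 1) f = Bool.rec (motive := fun _ => Bool) false (sra n f) (f n) := rfl
    rw [h1] at h
    rcases hb : f n with _ | _
    · rw [hb] at h
      exact absurd h (by simp)
    · rw [hb] at h
      intro i hi
      rcases Nat.lt_succ_iff_lt_or_eq.1 hi with h2 | h2
      · exact ih h i h2
      · rw [h2]
        exact hb

private theorem sc_sfz {α : Type} (n : ℕ) (f : ℕ → α) : sfz n f = f n := by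
  cases n <;> rfl

private theorem sc_srow (M c a : ℕ) :
    srow M c a = (∑ b ∈ range M, tb c a b) + 4096 * ∑ b ∈ range M, (b + 1) * tb c a b := by
  unfold srow
  rw [sc_rs, mul_sum, ← sum_add_distrib]
  refine sum_congr rfl fun b _ => ?_
  change tb c a b * (4096 * b + 4097) = _
  ring

/-- the row without the diagonal entry -/
private theorem sc_srow' {M a : ℕ} (ha : a < M) (c : ℕ) :
    Nat.sub (srow M c a) (Nat.mul (tb c a a) (Nat.add (Nat.mul (nat_lit 4096) a) (nat_lit 4097))) =
      (∑ b ∈ range M, if b = a then 0 else tb c a b) + 4096 * ∑ b ∈ range M, (b + 1) * (if b = a then 0 else tb c a b) := by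
  rw [sc_srow]
  have h1 : ∑ b ∈ range M, tb c a b = tb c a a + ∑ b ∈ range M, (if b = a then 0 else tb c a b) := by
    have h2 : tb c a a = ∑ b ∈ range M, (if b = a then tb c a b else 0) := by
      rw [sum_ite_eq' (range M) a, if_pos (mem_range.2 ha)]
    rw [h2, ← sum_add_distrib]
    refine sum_congr rfl fun b _ => ?_
    split_ifs <;> omega
  have h3 : ∑ b ∈ range M, (b + 1) * tb c a b =
      (a + 1) * tb c a a + ∑ b ∈ range M, (b + 1) * (if b = a then 0 else tb c a b) := by
    have h2 : (a + 1) * tb c a a = ∑ b ∈ range M, (if b = a then (b + 1) * tb c a b else 0) := by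
      rw [sum_ite_eq' (range M) a, if_pos (mem_range.2 ha)]
    rw [h2, ← sum_add_distrib]
    refine sum_congr rfl fun b _ => ?_
    split_ifs
    · rw [mul_zero, add_zero]
    · rw [zero_add]
  rw [h1, h3]
  change (_ + _) - tb c a a * (4096 * a + 4097) = _
  have h4 : tb c a a * (4096 * a + 4097) = tb c a a + 4096 * ((a + 1) * tb c a a) := by ring
  rw [h4]
  omega

private theorem sc_le (M : ℕ) (f : ℕ → ℕ) (hf : ∀ b, f b ≤ 1) : ∑ b ∈ range M, f b ≤ M := by
  have h := sum_le_card_nsmul (range M) f 1 fun b _ => hf b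
  rwa [card_range, smul_eq_mul, mul_one] at h

/-- entries of the adjacency matrix -/
private noncomputable def sc_ev (p q z : ℕ) : ℤ → ℤ → ℕ
  | .ofNat 0, .ofNat 0 => 0
  | .ofNat 0, .ofNat (b + 1) => z / 2 ^ b % 2
  | .ofNat 0, .negSucc b => z / 2 ^ b % 2
  | .ofNat (a + 1), .ofNat 0 => z / 2 ^ a % 2
  | .negSucc a, .ofNat 0 => z / 2 ^ a % 2
  | .ofNat (a + 1), .ofNat (b + 1) => if b = a then 0 else tb p a b
  | .negSucc a, .negSucc b => if b = a then 0 else tb p a b
  | .ofNat (a + 1), .negSucc b => tb q a b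
  | .negSucc a, .ofNat (b + 1) => tb q a b

private theorem sc_ev_comm (p q z : ℕ) (x y : ℤ) : sc_ev p q z x y = sc_ev p q z y x := by
  have key : ∀ a b : ℕ, (if b = a then 0 else tb p a b) = if a = b then 0 else tb p b a := by
    intro a b
    by_cases h : b = a
    · rw [if_pos h, if_pos h.symm]
    · rw [if_neg h, if_neg (Ne.symm h), sc_tb_comm]
  rcases x with (_ | a) | a <;> rcases y with (_ | b) | b
  · rfl
  · rfl
  · rfl
  · rfl
  · exact key a b
  · exact sc_tb_comm q a b
  · rfl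
  · exact sc_tb_comm q a b
  · exact key a b

private theorem sc_ev_self (p q z : ℕ) (x : ℤ) : sc_ev p q z x x = 0 := by
  rcases x with (_ | a) | a
  · rfl
  · exact if_pos rfl
  · exact if_pos rfl

private theorem sc_ev_01 (p q z : ℕ) (x y : ℤ) : sc_ev p q z x y = 0 ∨ sc_ev p q z x y = 1 := by
  have h1 : ∀ a b : ℕ, (if b = a then 0 else tb p a b) = 0 ∨ (if b = a then 0 else tb p a b) = 1 := by
    intro a b
    split_ifs
    · exact Or.inl rfl
    · exact sc_tb p a b
  have h2 : ∀ a : ℕ, z / 2 ^ a % 2 = 0 ∨ z / 2 ^ a % 2 = 1 := fun a => by omega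
  rcases x with (_ | a) | a <;> rcases y with (_ | b) | b
  · exact Or.inl rfl
  · exact h2 b
  · exact h2 b
  · exact h2 a
  · exact h1 a b
  · exact sc_tb q a b
  · exact h2 a
  · exact sc_tb q a b
  · exact h1 a b

private theorem sc_sum_I (M : ℕ) (f : ℤ → ℤ) :
    ∑ y ∈ I (M : ℤ), f y = f 0 + ∑ a ∈ range M, (f (Int.ofNat (a + 1)) + f (Int.negSucc a)) := by
  induction M with
  | zero =>
    have h : I ((0 : ℕ) : ℤ) = {0} := by
      unfold I
      ext y
      rw [mem_Icc, mem_singleton]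
      omega
    rw [h, sum_singleton, range_zero, sum_empty, add_zero]
  | succ M ih =>
    have h : I ((M + 1 : ℕ) : ℤ) = insert (Int.ofNat (M + 1)) (insert (Int.negSucc M) (I (M : ℤ))) := by
      unfold I
      ext y
      rw [mem_insert, mem_insert, mem_Icc, mem_Icc, Int.negSucc_eq, Int.ofNat_eq_natCast]
      push_cast
      omega
    have h1 : Int.negSucc M ∉ I (M : ℤ) := by
      unfold I
      rw [mem_Icc, Int.negSucc_eq]
      omega
    have h2 : Int.ofNat (M + 1) ∉ insert (Int.negSucc M) (I (M : ℤ)) := by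
      unfold I
      rw [mem_insert, mem_Icc, Int.negSucc_eq, Int.ofNat_eq_natCast]
      push_cast
      omega
    rw [h, sum_insert h2, sum_insert h1, ih, sum_range_succ]
    ring

private theorem sc_mem {M : ℕ} {x : ℤ} (hx : x ∈ I (M : ℤ)) :
    x = 0 ∨ ∃ a < M, x = Int.ofNat (a + 1) ∨ x = Int.negSucc a := by
  unfold I at hx
  rw [mem_Icc] at hx
  rcases lt_trichotomy x 0 with h | h | h
  · refine Or.inr ⟨(-x).toNat - 1, by omega, Or.inr ?_⟩
    rw [Int.negSucc_eq]
    omega
  · exact Or.inl h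
  · refine Or.inr ⟨x.toNat - 1, by omega, Or.inl ?_⟩
    rw [Int.ofNat_eq_natCast]
    omega

theorem lg_of_schk {M ρ p q z : ℕ} (h : schk M ρ p q z = true) : LG (I M) (2 * ρ) 1 := by
  classical
  unfold schk at h
  rw [Bool.and_eq_true, Bool.and_eq_true, Nat.ble_eq, beq_iff_eq, sc_rs] at h
  obtain ⟨hM, hz, hrow⟩ := h
  have hR : ∀ a < M,
      (z / 2 ^ a % 2 + (∑ b ∈ range M, if b = a then 0 else tb p a b) + ∑ b ∈ range M, tb q a b = 2 * ρ) ∧
      (∑ b ∈ range M, (b + 1) * (if b = a then 0 else tb p a b) = a + 1 + ∑ b ∈ range M, (b + 1) * tb q a b) := by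
    intro a ha
    have h1 := sc_sra hrow a ha
    rw [sc_sfz, sc_sfz, sc_srow' ha, sc_srow, Bool.and_eq_true, beq_iff_eq, beq_iff_eq] at h1
    have h2 : (∑ b ∈ range M, if b = a then 0 else tb p a b) ≤ M := by
      refine sc_le M _ fun b => ?_
      have := sc_tb p a b
      split_ifs <;> omega
    have h3 : (∑ b ∈ range M, tb q a b) ≤ M := by
      refine sc_le M _ fun b => ?_
      have := sc_tb q a b
      omega
    omega
  have hI : ∀ (x : ℤ) (g : ℤ → ℤ), ∑ y ∈ (I (M : ℤ)).filter (fun y => sc_ev p q z x y = 1), g y =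
      ∑ y ∈ I (M : ℤ), (sc_ev p q z x y : ℤ) * g y := by
    intro x g
    rw [sum_filter]
    refine sum_congr rfl fun y _ => ?_
    rcases sc_ev_01 p q z x y with h1 | h1
    · rw [if_neg (by omega), h1]
      simp
    · rw [if_pos h1, h1]
      simp
  refine ⟨fun x => if x ∈ I (M : ℤ) then (I (M : ℤ)).filter (fun y => sc_ev p q z x y = 1) else ∅, ?_, ?_, ?_, ?_⟩
  · constructor
    · intro x y hy
      by_cases hx : x ∈ I (M : ℤ)
      · rw [if_pos hx, mem_filter] at hy
        rw [if_pos hy.1, mem_filter]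
        exact ⟨hx, by rw [sc_ev_comm]; exact hy.2⟩
      · rw [if_neg hx] at hy
        exact absurd hy (notMem_empty _)
    · intro x hx
      by_cases hx' : x ∈ I (M : ℤ)
      · rw [if_pos hx', mem_filter, sc_ev_self] at hx
        omega
      · rw [if_neg hx'] at hx
        exact absurd hx (notMem_empty _)
  · intro x hx
    exact if_neg hx
  · intro x hx
    rw [if_pos hx]
    have h0 : (((I (M : ℤ)).filter (fun y => sc_ev p q z x y = 1)).card : ℤ) =
        ∑ y ∈ (I (M : ℤ)).filter (fun y => sc_ev p q z x y = 1), (1 : ℤ) := by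
      rw [sum_const, nsmul_eq_mul, mul_one]
    rw [hI, sc_sum_I] at h0
    rcases sc_mem hx with rfl | ⟨a, ha, rfl | rfl⟩
    · have h1 : ∑ a ∈ range M, (((sc_ev p q z 0 (Int.ofNat (a + 1)) : ℕ) : ℤ) * 1 + ((sc_ev p q z 0 (Int.negSucc a) : ℕ) : ℤ) * 1) =
          2 * ((∑ a ∈ range M, z / 2 ^ a % 2 : ℕ) : ℤ) := by
        rw [Nat.cast_sum, mul_sum]
        refine sum_congr rfl fun a _ => ?_
        change (((z / 2 ^ a % 2 : ℕ) : ℤ)) * 1 + ((z / 2 ^ a % 2 : ℕ) : ℤ) * 1 = _
        ring
      rw [h1, hz] at h0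
      change _ = ((0 : ℕ) : ℤ) * 1 + _ at h0
      omega
    · obtain ⟨r1, r2⟩ := hR a ha
      have h1 : ∑ b ∈ range M, (((sc_ev p q z (Int.ofNat (a + 1)) (Int.ofNat (b + 1)) : ℕ) : ℤ) * 1 +
          ((sc_ev p q z (Int.ofNat (a + 1)) (Int.negSucc b) : ℕ) : ℤ) * 1) =
          ((∑ b ∈ range M, if b = a then 0 else tb p a b : ℕ) : ℤ) + ((∑ b ∈ range M, tb q a b : ℕ) : ℤ) := by
        rw [Nat.cast_sum, Nat.cast_sum, ← sum_add_distrib]
        refine sum_congr rfl fun b _ => ?_
        change (((if b = a then 0 else tb p a b : ℕ) : ℤ)) * 1 + ((tb q a b : ℕ) : ℤ) * 1 = _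
        ring
      rw [h1] at h0
      change _ = (((z / 2 ^ a % 2 : ℕ)) : ℤ) * 1 + _ at h0
      omega
    · obtain ⟨r1, r2⟩ := hR a ha
      have h1 : ∑ b ∈ range M, (((sc_ev p q z (Int.negSucc a) (Int.ofNat (b + 1)) : ℕ) : ℤ) * 1 +
          ((sc_ev p q z (Int.negSucc a) (Int.negSucc b) : ℕ) : ℤ) * 1) =
          ((∑ b ∈ range M, if b = a then 0 else tb p a b : ℕ) : ℤ) + ((∑ b ∈ range M, tb q a b : ℕ) : ℤ) := by
        rw [Nat.cast_sum, Nat.cast_sum, ← sum_add_distrib]
        refine sum_congr rfl fun b _ => ?_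
        change ((tb q a b : ℕ) : ℤ) * 1 + (((if b = a then 0 else tb p a b : ℕ) : ℤ)) * 1 = _
        ring
      rw [h1] at h0
      change _ = (((z / 2 ^ a % 2 : ℕ)) : ℤ) * 1 + _ at h0
      omega
  · intro x hx
    rw [if_pos hx, hI x (fun y => y), sc_sum_I]
    rcases sc_mem hx with rfl | ⟨a, ha, rfl | rfl⟩
    · have h1 : ∑ a ∈ range M, (((sc_ev p q z 0 (Int.ofNat (a + 1)) : ℕ) : ℤ) * Int.ofNat (a + 1) +
          ((sc_ev p q z 0 (Int.negSucc a) : ℕ) : ℤ) * Int.negSucc a) = 0 := by
        refine sum_eq_zero fun a _ => ?_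
        change (((z / 2 ^ a % 2 : ℕ) : ℤ)) * Int.ofNat (a + 1) + ((z / 2 ^ a % 2 : ℕ) : ℤ) * Int.negSucc a = _
        rw [Int.negSucc_eq, Int.ofNat_eq_natCast]
        push_cast
        ring
      rw [h1]
      simp
    · obtain ⟨r1, r2⟩ := hR a ha
      have h1 : ∑ b ∈ range M, (((sc_ev p q z (Int.ofNat (a + 1)) (Int.ofNat (b + 1)) : ℕ) : ℤ) * Int.ofNat (b + 1) +
          ((sc_ev p q z (Int.ofNat (a + 1)) (Int.negSucc b) : ℕ) : ℤ) * Int.negSucc b) =
          ((∑ b ∈ range M, (b + 1) * (if b = a then 0 else tb p a b) : ℕ) : ℤ) -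
            ((∑ b ∈ range M, (b + 1) * tb q a b : ℕ) : ℤ) := by
        rw [Nat.cast_sum, Nat.cast_sum, ← sum_sub_distrib]
        refine sum_congr rfl fun b _ => ?_
        change (((if b = a then 0 else tb p a b : ℕ) : ℤ)) * Int.ofNat (b + 1) + ((tb q a b : ℕ) : ℤ) * Int.negSucc b = _
        rw [Int.negSucc_eq, Int.ofNat_eq_natCast]
        push_cast
        ring
      rw [h1, r2, Int.ofNat_eq_natCast]
      push_cast
      ring
    · obtain ⟨r1, r2⟩ := hR a ha
      have h1 : ∑ b ∈ range M, (((sc_ev p q z (Int.negSucc a) (Int.ofNat (b + 1)) : ℕ) : ℤ) * Int.ofNat (b + 1) +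
          ((sc_ev p q z (Int.negSucc a) (Int.negSucc b) : ℕ) : ℤ) * Int.negSucc b) =
          ((∑ b ∈ range M, (b + 1) * tb q a b : ℕ) : ℤ) -
            ((∑ b ∈ range M, (b + 1) * (if b = a then 0 else tb p a b) : ℕ) : ℤ) := by
        rw [Nat.cast_sum, Nat.cast_sum, ← sum_sub_distrib]
        refine sum_congr rfl fun b _ => ?_
        change ((tb q a b : ℕ) : ℤ) * Int.ofNat (b + 1) + (((if b = a then 0 else tb p a b : ℕ) : ℤ)) * Int.negSucc b = _
        rw [Int.negSucc_eq, Int.ofNat_eq_natCast]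
        push_cast
        ring
      rw [h1, r2, Int.negSucc_eq]
      push_cast
      ring

end Pool.Agent.Helper68.OC
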