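import Pool.Agent.Helper68.OC.SChk

/-! OC-SmallTab. Tables of small certificates. -/

namespace Pool.Agent.Helper68.OC

open Finset Pool.Agent.Helper74.Hc

theorem of_stab {M : ℕ} {l : List (ℕ × ℕ × ℕ × ℕ)}
    (h : (l.all fun e => schk M e.1 e.2.1 e.2.2.1 e.2.2.2) = true) {ρ : ℕ}
    (hρ : (l.map Prod.fst).contains ρ = true) : LG (I M) (2 * ρ) 1 := by
  rw [List.contains_iff_mem, List.mem_map] at hρ
  obtain ⟨e, he, rfl⟩ := hρ
  rw [List.all_eq_true] at h
  exact lg_of_schk (h e he)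

end Pool.Agent.Helper68.OC
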