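import Pool.Agent.Helper68.OC.Tri

/-! OC-Step. The recursion for the cores, and the completion of the range.

`gc_step`: from a good core on `{1, …, t - 1}` (`t = n + 1`) and the Langford triples `lang s t`
(file `Pool/Agent/Helper74/Hc/Lang.lean`) of `[t, 13 t + 12 s - 1]`, gap `5 t + 4 s`, by `core_ext`.
For the new gap `5 t + 4 s > n` the function `sg` vanishes on `[-n, n]` (`core_regap`).
`3 * T.card = 12 * (s + t)` because the triples are disjoint and fill the interval; so `2 z n' + W'` is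
divisible by `4`.  The number of classes of degree `≠ 2` is at most `n` (`core_few`).
`gc_all`: strong induction; `n + 1 = 13 t + 12 s` with `18 ≤ t`, `s + 2 ≤ t` for `n ≥ 388`. -/

namespace Pool.Agent.Helper68.OC

open Finset Pool.Agent.Helper74.Hc

/-- a core below the gap is a core for every larger gap -/
theorem core_regap {n g g' : ℤ} {z D E W : ℕ} (h : Core (Icc 1 n) g z D E W) (hg : n < g') :
    Core (Icc 1 n) g' z D E W := by
  obtain ⟨N, h⟩ := h
  refine ⟨N, { h with gap := ?_ }⟩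
  intro x hx
  have hx1 := mem_Icc.1 hx
  have hz : ∀ y : ℤ, |y| ≤ n → sg g' y = 0 := by
    intro y hy
    have := abs_le.1 hy
    unfold sg
    rw [if_neg (by omega), if_neg (by omega)]
  rw [hz x (by rw [abs_of_pos (by omega)]; exact hx1.2)]
  refine sum_eq_zero fun y hy => hz y ?_
  rcases h.mem_right hy with h1 | h1
  · rw [h1, abs_zero]
    omega
  · exact (mem_Icc.1 h1).2

/-- the number of classes of degree `≠ 2` is at most the number of classes -/
theorem core_few {n : ℕ} {g : ℤ} {z D E W : ℕ} (h : Core (Icc 1 (n : ℤ)) g z D E W) :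
    Core (Icc 1 (n : ℤ)) g z D (min E n) W := by
  obtain ⟨N, h⟩ := h
  refine ⟨N, { h with few := le_min h.few ?_ }⟩
  refine (card_filter_le _ _).trans ?_
  rw [Int.card_Icc]
  omega

theorem gc_step {z n s : ℕ} (h : GC z n) (hn : 17 ≤ n) (hs : s + 2 ≤ n + 1) :
    GC z (13 * (n + 1) + 12 * s - 1) := by
  obtain ⟨g, E, W, hg1, hg2, hc, hd, hf⟩ := h
  obtain ⟨T, c₂, c₃, c₄, t1, t2, t3, t4, -⟩ := lang (s : ℤ) ((n : ℤ) + 1) (by omega) (by omega)
  have h1 := core_few (core_regap hc (g' := 5 * ((n : ℤ) + 1) + 4 * s) (by omega))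
  have hD : 2 ≤ (if z = 2 then 4 else 6 : ℕ) := by split_ifs <;> omega
  have hmem : ∀ v : ℤ, v ∈ (T.biUnion fun p => {p.1, p.2, p.1 + p.2}) ↔
      ((n : ℤ) + 1 ≤ v ∧ v < 13 * ((n : ℤ) + 1) + 12 * s) := by
    intro v
    rw [t3 v, mem_biUnion]
    simp only [mem_insert, mem_singleton]
  have hdisj : ∀ p ∈ T, Disjoint (Icc 1 (n : ℤ)) {p.1, p.2, p.1 + p.2} := by
    intro p hp
    rw [disjoint_left]
    intro v hv hv'
    have h2 := (hmem v).1 (mem_biUnion.2 ⟨p, hp, hv'⟩)
    have h3 := mem_Icc.1 hv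
    omega
  have h2 := core_ext h1 (by omega) hD T t1 t2 hdisj (fun p hp => Or.inl (t4 p hp))
  have hU : Icc 1 (n : ℤ) ∪ (T.biUnion fun p => {p.1, p.2, p.1 + p.2}) =
      Icc 1 ((13 * (n + 1) + 12 * s - 1 : ℕ) : ℤ) := by
    ext v
    rw [mem_union, hmem v, mem_Icc, mem_Icc]
    omega
  rw [hU] at h2
  have hcard : T.card = 4 * (s + (n + 1)) := by
    have e1 : (T.biUnion fun p => ({p.1, p.2, p.1 + p.2} : Finset ℤ)).card = 3 * T.card := by
      rw [card_biUnion t2]
      have e2 : ∀ p ∈ T, ({p.1, p.2, p.1 + p.2} : Finset ℤ).card = 3 := by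
        intro p hp
        have := t1 p hp
        have m1 : p.1 ∉ ({p.2, p.1 + p.2} : Finset ℤ) := by
          simp only [mem_insert, mem_singleton]
          omega
        rw [card_insert_of_notMem m1, card_pair (by omega)]
      rw [sum_congr rfl e2, sum_const, smul_eq_mul, mul_comm]
    have e3 : (T.biUnion fun p => ({p.1, p.2, p.1 + p.2} : Finset ℤ)) =
        Ico ((n : ℤ) + 1) (13 * ((n : ℤ) + 1) + 12 * s) := by
      ext v
      rw [hmem v, mem_Ico]
    rw [e3, Int.card_Ico] at e1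
    omega
  refine ⟨5 * ((n : ℤ) + 1) + 4 * s, min E n, W + 6 * T.card, by omega, by omega, h2, ?_, ?_⟩
  · rw [hcard]
    obtain ⟨k, hk⟩ := hd
    have e : 13 * (n + 1) + 12 * s - 1 = n + 12 * (n + 1) + 12 * s := by omega
    refine ⟨k + 6 * z * (n + 1) + 6 * z * s + 6 * (s + (n + 1)), ?_⟩
    rw [e]
    have e2 : 2 * z * (n + 12 * (n + 1) + 12 * s) + (W + 6 * (4 * (s + (n + 1)))) =
        (2 * z * n + W) + 24 * z * (n + 1) + 24 * z * s + 24 * (s + (n + 1)) := by ring
    rw [e2, hk]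
    ring
  · intro _
    have := min_le_right E n
    omega

theorem gc_all {z : ℕ} (h : ∀ n, 17 ≤ n → n < 388 → GC z n) (n : ℕ) (hn : 17 ≤ n) : GC z n := by
  induction n using Nat.strong_induction_on with
  | _ n ih =>
    by_cases h1 : n < 388
    · exact h n hn h1
    · obtain ⟨t, s, ht, hs, he⟩ : ∃ t s : ℕ, 18 ≤ t ∧ s + 2 ≤ t ∧ 13 * t + 12 * s = n + 1 := by
        rcases (by omega : (n + 1) % 13 = 0 ∨ (n + 1) % 13 = 12 ∨ (1 ≤ (n + 1) % 13 ∧ (n + 1) % 13 ≤ 11)) with
          h2 | h2 | h2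
        · exact ⟨(n + 1) / 13, 0, by omega, by omega, by omega⟩
        · exact ⟨(n + 1) / 13, 1, by omega, by omega, by omega⟩
        · exact ⟨(n + 1) / 13 - (12 - (n + 1) % 13), 13 - (n + 1) % 13, by omega, by omega, by omega⟩
      have h3 := ih (t - 1) (by omega) (by omega)
      have h4 := gc_step (s := s) h3 (by omega) (by omega)
      have e : 13 * (t - 1 + 1) + 12 * s - 1 = n := by omega
      rwa [e] at h4

end Pool.Agent.Helper68.OC
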