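import Pool.Agent.Helper68.OC.Chk

/-! OC-Tab. Tables of core certificates: compact format. A certificate is `(g, kS, cS, kT, cT)`: the gap, the
number of rows and the code of the special part, the number and the code of the Schur triples
(digits in base 1024; entries of rows are shifted by 512). -/

namespace Pool.Agent.Helper68.OC

/-- decode pairs -/
def decT : ℕ → ℕ → List (ℕ × ℕ)
  | 0, _ => []
  | k + 1, x => (x % 1024, x / 1024 % 1024) :: decT k (x / 1048576)

/-- decode a row of `k` integers -/
def decR : ℕ → ℕ → List ℤ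
  | 0, _ => []
  | k + 1, x => (((x % 1024 : ℕ) : ℤ) - 512) :: decR k (x / 1024)

/-- decode the special part -/
def decS : ℕ → ℕ → List (ℕ × List ℤ)
  | 0, _ => []
  | k + 1, x => (x % 1024, decR (x / 1024 % 1024) (x / 1048576)) ::
      decS k (x / 1024 ^ (x / 1024 % 1024 + 2))

/-- check a list of consecutive certificates, starting with order `n` -/
def chkL (z : ℕ) : ℕ → List (ℕ × ℕ × ℕ × ℕ × ℕ) → Bool
  | _, [] => true
  | n, c :: l => chk z n c.1 (decS c.2.1 c.2.2.1) (decT c.2.2.2.1 c.2.2.2.2) && chkL z (n + 1) l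

theorem gc_of_chkL {z : ℕ} : ∀ {n : ℕ} {l : List (ℕ × ℕ × ℕ × ℕ × ℕ)}, chkL z n l = true →
    ∀ i, i < l.length → GC z (n + i) := by
  intro n l
  induction l generalizing n with
  | nil => intro _ i hi; simp at hi
  | cons c l ih =>
    intro h i hi
    rw [chkL, Bool.and_eq_true] at h
    rcases Nat.eq_zero_or_pos i with h0 | h0
    · subst h0
      exact gc_of_chk h.1
    · have h1 := ih h.2 (i - 1) (by rw [List.length_cons] at hi; omega)
      have e : n + 1 + (i - 1) = n + i := by omega
      rwa [e] at h1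

theorem gc_range {z n L : ℕ} {l : List (ℕ × ℕ × ℕ × ℕ × ℕ)} (h : chkL z n l = true)
    (hL : l.length = L) (m : ℕ) (h1 : n ≤ m) (h2 : m < n + L) : GC z m := by
  have h3 := gc_of_chkL h (m - n) (by omega)
  have e : n + (m - n) = m := by omega
  rwa [e] at h3

end Pool.Agent.Helper68.OC
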