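import Pool.Agent.Helper68.OC.Defs

/-! OC-Tri. Adding Schur triples to a core.

PLAN. `core_add_triple`: the new neighbourhoods: `N x` for `x = 0` or `|x| ∈ X` (i.e. unchanged off the six
new vertices), and for the new vertices `a ~ -b, a+b`; `b ~ -a, a+b`; `a+b ~ a, b`; and the negatives
(`-a ~ b, -a-b` etc.). Best as one definition:
 `N' x = if x = a then {-b, a+b} else if x = -a then {b, -(a+b)} else if x = b then {-a, a+b} else
   if x = -b then {a, -(a+b)} else if x = a+b then {a, b} else if x = -(a+b) then {-a, -b} else N x`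
(`0 < a < b`, so the six vertices are distinct; none of them is in `±X ∪ {0}`). Sums: `-b + (a+b) = a` etc.
The gap condition is a case check (`a < g ≤ b`: the signs of `a, b, a+b` are `0, 1, 1`; `a + b < g`: all `0`).
Only degrees `2` are added, so `E` does not change; `W` grows by `6`.
`core_ext` by induction on the finite set `T` (`Finset.induction_on`). -/

namespace Pool.Agent.Helper68.OC

open Finset Pool.Agent.Helper74.Hc

/-- the graph on the six vertices of a Schur triple -/
private def tr (a b x : ℤ) : Finset ℤ :=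
  if x = a then {-b, a + b} else if x = -a then {b, -(a + b)} else if x = b then {-a, a + b} else
  if x = -b then {a, -(a + b)} else if x = a + b then {a, b} else if x = -(a + b) then {-a, -b} else ∅

private theorem tr_mem {a b : ℤ} (ha : 0 < a) (hab : a < b) (x y : ℤ) : y ∈ tr a b x ↔
    (x = a ∧ (y = -b ∨ y = a + b)) ∨ (x = -a ∧ (y = b ∨ y = -(a + b))) ∨ (x = b ∧ (y = -a ∨ y = a + b)) ∨
    (x = -b ∧ (y = a ∨ y = -(a + b))) ∨ (x = a + b ∧ (y = a ∨ y = b)) ∨
    (x = -(a + b) ∧ (y = -a ∨ y = -b)) := by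
  unfold tr
  split_ifs with q1 q2 q3 q4 q5 q6
  · simp only [mem_insert, mem_singleton]
    omega
  · simp only [mem_insert, mem_singleton]
    omega
  · simp only [mem_insert, mem_singleton]
    omega
  · simp only [mem_insert, mem_singleton]
    omega
  · simp only [mem_insert, mem_singleton]
    omega
  · simp only [mem_insert, mem_singleton]
    omega
  · simp only [notMem_empty, q1, q2, q3, q4, q5, q6, false_and, or_self]

private theorem tr_a (a b : ℤ) : tr a b a = {-b, a + b} := if_pos rfl

private theorem tr_b {a b : ℤ} (ha : 0 < a) (hab : a < b) : tr a b b = {-a, a + b} := by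
  unfold tr
  rw [if_neg (by omega), if_neg (by omega), if_pos rfl]

private theorem tr_c {a b : ℤ} (ha : 0 < a) (hab : a < b) : tr a b (a + b) = {a, b} := by
  unfold tr
  rw [if_neg (by omega), if_neg (by omega), if_neg (by omega), if_neg (by omega), if_pos rfl]

private theorem tr_empty {a b x : ℤ} (ha : 0 < a) (hab : a < b)
    (h1 : x ≠ a) (h2 : x ≠ -a) (h3 : x ≠ b) (h4 : x ≠ -b) (h5 : x ≠ a + b) (h6 : x ≠ -(a + b)) :
    tr a b x = ∅ := by
  rw [eq_empty_iff_forall_notMem]
  intro y hy
  rw [tr_mem ha hab] at hy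
  omega

theorem core_add_triple {X : Finset ℤ} {g : ℤ} {z D E W : ℕ} (h : Core X g z D E W) (hg : 1 ≤ g)
    (hD : 2 ≤ D) {a b : ℤ} (ha : 0 < a) (hab : a < b) (h1 : a ∉ X) (h2 : b ∉ X) (h3 : a + b ∉ X)
    (ht : (a < g ∧ g ≤ b) ∨ a + b < g) : Core (X ∪ {a, b, a + b}) g z D E (W + 6) := by
  obtain ⟨N, h⟩ := h
  have hX : ∀ x ∈ X, tr a b x = ∅ := by
    intro x hx
    have hp := h.pos x hx
    refine tr_empty ha hab ?_ (by omega) ?_ (by omega) ?_ (by omega)
    · rintro rfl; exact h1 hx
    · rintro rfl; exact h2 hx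
    · rintro rfl; exact h3 hx
  have ha' : N a = ∅ := h.supp a (by omega) (by rwa [abs_of_pos ha])
  have hb' : N b = ∅ := h.supp b (by omega) (by rwa [abs_of_pos (by omega : 0 < b)])
  have hc' : N (a + b) = ∅ := h.supp (a + b) (by omega) (by rwa [abs_of_pos (by omega : 0 < a + b)])
  have eX : ∀ x ∈ X, N x ∪ tr a b x = N x := fun x hx => by rw [hX x hx, union_empty]
  have ea : N a ∪ tr a b a = {-b, a + b} := by rw [ha', tr_a, empty_union]
  have eb : N b ∪ tr a b b = {-a, a + b} := by rw [hb', tr_b ha hab, empty_union]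
  have ec : N (a + b) ∪ tr a b (a + b) = {a, b} := by rw [hc', tr_c ha hab, empty_union]
  have ca : ({-b, a + b} : Finset ℤ).card = 2 := card_pair (by omega)
  have cb : ({-a, a + b} : Finset ℤ).card = 2 := card_pair (by omega)
  have cc : ({a, b} : Finset ℤ).card = 2 := card_pair (by omega)
  have hcases : ∀ x ∈ X ∪ {a, b, a + b}, x ∈ X ∨ x = a ∨ x = b ∨ x = a + b := by
    intro x hx
    simpa only [mem_union, mem_insert, mem_singleton] using hx
  have hc2 : ∀ x, x = a ∨ x = b ∨ x = a + b → (N x ∪ tr a b x).card = 2 := by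
    rintro x (rfl | rfl | rfl)
    · rw [ea, ca]
    · rw [eb, cb]
    · rw [ec, cc]
  have hdis : Disjoint X {a, b, a + b} := by
    rw [disjoint_right]
    intro x hx
    simp only [mem_insert, mem_singleton] at hx
    rcases hx with rfl | rfl | rfl
    · exact h1
    · exact h2
    · exact h3
  refine ⟨fun x => N x ∪ tr a b x, ?_, ⟨?_, ?_⟩, ?_, ?_, ?_, ?_, ?_, ?_, ?_, ?_, ?_, ?_⟩
  · intro x hx
    rcases hcases x hx with hx | rfl | rfl | rfl
    · exact h.pos x hx
    · exact ha
    · omega
    · omega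
  · intro x y hy
    rcases mem_union.1 hy with hy | hy
    · exact mem_union_left _ (h.gr.symm x y hy)
    · apply mem_union_right
      rw [tr_mem ha hab] at hy ⊢
      omega
  · intro x hx
    rcases mem_union.1 hx with hx | hx
    · exact h.gr.irr x hx
    · rw [tr_mem ha hab] at hx
      omega
  · intro x y hy
    rcases mem_union.1 hy with hy | hy
    · exact mem_union_left _ (h.odd x y hy)
    · apply mem_union_right
      rw [tr_mem ha hab] at hy ⊢
      omega
  · intro x hx0 hx
    simp only [mem_union, mem_insert, mem_singleton, not_or] at hx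
    obtain ⟨hx, q1, q2, q3⟩ := hx
    show N x ∪ tr a b x = ∅
    rw [h.supp x hx0 hx, empty_union]
    refine tr_empty ha hab ?_ ?_ ?_ ?_ ?_ ?_
    · rintro rfl; exact q1 (abs_of_pos ha)
    · rintro rfl; exact q1 (by rw [abs_neg, abs_of_pos ha])
    · rintro rfl; exact q2 (abs_of_pos (by omega))
    · rintro rfl; exact q2 (by rw [abs_neg, abs_of_pos (by omega)])
    · rintro rfl; exact q3 (abs_of_pos (by omega))
    · rintro rfl; exact q3 (by rw [abs_neg, abs_of_pos (by omega)])
  · intro x hx
    show ∑ y ∈ N x ∪ tr a b x, y = x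
    rcases hcases x hx with hx | hx | hx | hx
    · rw [eX x hx]; exact h.sum x hx
    · rw [hx, ea, sum_pair (by omega)]; omega
    · rw [hx, eb, sum_pair (by omega)]; omega
    · rw [hx, ec, sum_pair (by omega)]
  · intro x hx
    show ∑ y ∈ N x ∪ tr a b x, sg g y = sg g x
    rcases hcases x hx with hx | hx | hx | hx
    · rw [eX x hx]; exact h.gap x hx
    · rw [hx, ea, sum_pair (by omega)]
      unfold sg
      split_ifs <;> omega
    · rw [hx, eb, sum_pair (by omega)]
      unfold sg
      split_ifs <;> omega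
    · rw [hx, ec, sum_pair (by omega)]
      unfold sg
      split_ifs <;> omega
  · show (N 0 ∪ tr a b 0).card = 2 * z
    rw [tr_empty ha hab (by omega) (by omega) (by omega) (by omega) (by omega) (by omega), union_empty]
    exact h.zero
  · intro x hx
    show (N x ∪ tr a b x).card = 2 ∨ (N x ∪ tr a b x).card = 4 ∨ (N x ∪ tr a b x).card = 6
    rcases hcases x hx with hx | hx
    · rw [eX x hx]; exact h.deg x hx
    · exact Or.inl (hc2 x hx)
  · intro x hx
    show (N x ∪ tr a b x).card ≤ D
    rcases hcases x hx with hx | hx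
    · rw [eX x hx]; exact h.degD x hx
    · rw [hc2 x hx]; exact hD
  · intro x hx
    show ((N x ∪ tr a b x).filter fun y => y ≠ 0 ∧ y ≠ -x).card ≤ 4
    rcases hcases x hx with hx | hx
    · rw [eX x hx]; exact h.kdeg x hx
    · exact (card_filter_le _ _).trans (by rw [hc2 x hx]; omega)
  · refine le_trans (card_le_card ?_) h.few
    intro x hx
    rw [mem_filter] at hx ⊢
    rcases hcases x hx.1 with h4 | h4
    · refine ⟨h4, ?_⟩
      have h5 := hx.2
      change (N x ∪ tr a b x).card ≠ 2 at h5
      rwa [eX x h4] at h5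
    · exact absurd (hc2 x h4) hx.2
  · rw [sum_union hdis, sum_congr rfl (g := fun x => (N x).card) (fun x hx => by rw [eX x hx]), h.tot]
    congr 1
    have e1 : a ∉ ({b, a + b} : Finset ℤ) := by
      simp only [mem_insert, mem_singleton]
      omega
    rw [sum_insert e1, sum_pair (by omega), ea, eb, ec, ca, cb, cc]
    rfl

theorem core_ext {X : Finset ℤ} {g : ℤ} {z D E W : ℕ} (h : Core X g z D E W) (hg : 1 ≤ g)
    (hD : 2 ≤ D) (T : Finset (ℤ × ℤ)) (h1 : ∀ p ∈ T, 0 < p.1 ∧ p.1 < p.2)
    (h2 : ∀ p ∈ T, ∀ q ∈ T, p ≠ q →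
      Disjoint ({p.1, p.2, p.1 + p.2} : Finset ℤ) {q.1, q.2, q.1 + q.2})
    (h3 : ∀ p ∈ T, Disjoint X {p.1, p.2, p.1 + p.2})
    (h4 : ∀ p ∈ T, (p.1 < g ∧ g ≤ p.2) ∨ p.1 + p.2 < g) :
    Core (X ∪ T.biUnion fun p => {p.1, p.2, p.1 + p.2}) g z D E (W + 6 * T.card) := by
  induction T using Finset.induction_on with
  | empty => simpa using h
  | insert p T hp ih =>
    have ih' := ih (fun q hq => h1 q (mem_insert_of_mem hq))
      (fun q hq r hr => h2 q (mem_insert_of_mem hq) r (mem_insert_of_mem hr))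
      (fun q hq => h3 q (mem_insert_of_mem hq)) (fun q hq => h4 q (mem_insert_of_mem hq))
    have hpm : p ∈ insert p T := mem_insert_self p T
    have hdis : Disjoint (X ∪ T.biUnion fun p => {p.1, p.2, p.1 + p.2}) ({p.1, p.2, p.1 + p.2} : Finset ℤ) := by
      rw [disjoint_union_left]
      refine ⟨h3 p hpm, ?_⟩
      rw [disjoint_biUnion_left]
      intro q hq
      exact h2 q (mem_insert_of_mem hq) p hpm (fun e => hp (e ▸ hq))
    rw [disjoint_right] at hdis
    have h5 := core_add_triple ih' hg hD (h1 p hpm).1 (h1 p hpm).2 (hdis (by simp)) (hdis (by simp))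
      (hdis (by simp)) (h4 p hpm)
    rw [card_insert_of_notMem hp, biUnion_insert]
    have e1 : X ∪ ((({p.1, p.2, p.1 + p.2} : Finset ℤ)) ∪ T.biUnion fun p => {p.1, p.2, p.1 + p.2}) =
        (X ∪ T.biUnion fun p => {p.1, p.2, p.1 + p.2}) ∪ {p.1, p.2, p.1 + p.2} := by
      rw [union_assoc, union_comm (T.biUnion _)]
    rw [e1, show W + 6 * (T.card + 1) = W + 6 * T.card + 6 by ring]
    exact h5

end Pool.Agent.Helper68.OC
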